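import Mathlib
import Pool.Agent.Q2.TN.Stm

/-! Project TN (helper2), job G1: the structure of `H` with a maximal Sylow subgroup. -/

set_option autoImplicit false

namespace Q83.TN_G1

open Q2.TN Subgroup

/-- conjugation condition gives containment in the normalizer -/
theorem le_nm {H : Type} [Group H] {P L : Subgroup H} (h : ∀ g ∈ P, ∀ x ∈ L, g * x * g⁻¹ ∈ L) :
    P ≤ normalizer (L : Set H) := by
  intro g hg
  rw [Subgroup.mem_normalizer_iff]
  intro x
  constructor
  · intro hx
    exact h g hg x hx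
  · intro hx
    have h1 := h g⁻¹ (P.inv_mem hg) _ hx
    have h2 : g⁻¹ * (g * x * g⁻¹) * g⁻¹⁻¹ = x := by group
    rwa [h2] at h1

theorem card_mul_rel {G : Type} [Group G] {H K : Subgroup G} (h : H ≤ K) :
    Nat.card H * H.relIndex K = Nat.card K := by
  have h1 := Subgroup.relIndex_mul_relIndex ⊥ H K bot_le h
  rwa [Subgroup.relIndex_bot_left, Subgroup.relIndex_bot_left] at h1

theorem g1 : S_G1 := by
  intro p hp H _ _ P hPs hP0 hP1 hmax hnil hOp
  obtain ⟨K, hKn, hKc, k, hKi⟩ := hnil
  have _ : Fact p.Prime := ⟨hp⟩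
  have hPp : IsPGroup p P := hPs.1
  obtain ⟨a, ha⟩ := (IsPGroup.iff_card).1 hPp
  have hKPb : K ⊓ P = ⊥ := by
    apply Disjoint.eq_bot
    apply Subgroup.disjoint_of_coprime_natCard
    rw [ha]
    exact Nat.Coprime.pow_right a hKc
  have htop : K ⊔ P = ⊤ := by
    rw [← Subgroup.index_eq_one]
    have h1 : (K ⊔ P).index ∣ p ^ k := by
      rw [← hKi]
      exact Subgroup.index_dvd_of_le le_sup_left
    have h2 : (K ⊔ P).index ∣ P.index := Subgroup.index_dvd_of_le le_sup_right
    obtain ⟨j, -, hj⟩ := (Nat.dvd_prime_pow hp).1 h1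
    rcases Nat.eq_zero_or_pos j with h0 | h0
    · rw [hj, h0, pow_zero]
    · exfalso
      apply hPs.2
      refine dvd_trans ?_ h2
      rw [hj]
      exact dvd_pow_self p (by omega)
  have hK0 : K ≠ ⊥ := by
    intro h
    rw [h, bot_sup_eq] at htop
    exact hP1 htop
  -- the clause on `L`
  have hL : ∀ L : Subgroup H, L ≤ K → (∀ g ∈ P, ∀ x ∈ L, g * x * g⁻¹ ∈ L) → L = ⊥ ∨ L = K := by
    intro L hLK hLP
    rcases hmax (P ⊔ L) le_sup_left with h | h
    · left
      have h1 : L ≤ P := by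
        rw [← h]
        exact le_sup_right
      exact le_bot_iff.1 (hKPb ▸ le_inf hLK h1)
    · right
      apply le_antisymm hLK
      intro x hx
      have h1 : x ∈ ((P ⊔ L : Subgroup H) : Set H) := by
        rw [h]
        trivial
      rw [Subgroup.coe_mul_of_left_le_normalizer_right P L (le_nm hLP)] at h1
      obtain ⟨q, hq, l, hl, rfl⟩ := Set.mem_mul.1 h1
      have h2 : q ∈ K := by
        have h3 := K.mul_mem hx (K.inv_mem (hLK hl))
        rwa [mul_inv_cancel_right] at h3
      have h3 : q ∈ K ⊓ P := ⟨h2, hq⟩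
      rw [hKPb, Subgroup.mem_bot] at h3
      rw [h3, one_mul]
      exact hl
  -- `K` is a `q`-group
  have hcard1 : Nat.card K ≠ 1 := fun h => hK0 (Subgroup.card_eq_one.1 h)
  obtain ⟨q, hq, hqK⟩ := Nat.exists_prime_and_dvd hcard1
  have _ : Fact q.Prime := ⟨hq⟩
  have hKq : IsPGroup q K := by
    obtain ⟨S⟩ : Nonempty (Sylow q K) := inferInstance
    set S1 : Subgroup H := S.map K.subtype with hS1
    set NS : Subgroup H := normalizer (S1 : Set H) with hNS
    have hFr : NS ⊔ K = ⊤ := Sylow.normalizer_sup_eq_top S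
    have hS1K : S1 ≤ K := Subgroup.map_subtype_le _
    have hS0 : S1 ≠ ⊥ := by
      intro h
      have h1 : Nat.card S1 = 1 := by rw [h]; exact Subgroup.card_bot
      have h2 : Nat.card S1 = Nat.card S :=
        Nat.card_congr (S.equivMapOfInjective K.subtype K.subtype_injective).toEquiv.symm
      have h3 : q ∣ Nat.card S := S.dvd_card_of_dvd_card hqK
      rw [← h2, h1] at h3
      exact hq.one_lt.ne' (Nat.dvd_one.1 h3)
    have hNSi : NS.index ∣ Nat.card K := by
      have h1 : K.index = K.relIndex NS := by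
        rw [← Subgroup.relIndex_top_right, ← hFr, Subgroup.relIndex_sup_right]
      have h2 : Nat.card (K ⊓ NS : Subgroup H) * (K ⊓ NS).relIndex NS = Nat.card NS :=
        card_mul_rel inf_le_right
      rw [Subgroup.inf_relIndex_right, ← h1] at h2
      have h3 := NS.card_mul_index
      have h4 := K.card_mul_index
      rw [← h2, ← h4] at h3
      have h5 : 0 < K.index := Nat.pos_of_ne_zero K.index_ne_zero_of_finite
      have h6 : Nat.card (K ⊓ NS : Subgroup H) * NS.index = Nat.card K := by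
        apply Nat.eq_of_mul_eq_mul_right h5
        rw [← h3]
        ring
      rw [← h6]
      exact dvd_mul_left _ _
    have hNSp : ¬ p ∣ NS.index := by
      intro h
      have h1 : p ∣ Nat.card K := h.trans hNSi
      have h2 : p ∣ Nat.gcd (Nat.card K) p := Nat.dvd_gcd h1 dvd_rfl
      rw [hKc] at h2
      exact hp.one_lt.ne' (Nat.dvd_one.1 h2)
    obtain ⟨R⟩ : Nonempty (Sylow p NS) := inferInstance
    have hR1 : IsPGroup p (R.map NS.subtype : Subgroup H) := R.isPGroup'.map _
    have hR2 : ¬ p ∣ (R.map NS.subtype : Subgroup H).index := by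
      rw [Subgroup.index_map_subtype]
      intro h
      rcases (Nat.Prime.dvd_mul hp).1 h with h | h
      · exact R.not_dvd_index h
      · exact hNSp h
    obtain ⟨g, hg⟩ := MulAction.exists_smul_eq H (hPp.toSylow hPs.2) (hR1.toSylow hR2)
    have hgP : ∀ x ∈ P, g * x * g⁻¹ ∈ NS := by
      intro x hx
      have h1 : g * x * g⁻¹ ∈ (g • (hPp.toSylow hPs.2) : Sylow p H) := by
        rw [Sylow.smul_def]
        exact ⟨x, hx, rfl⟩
      rw [hg] at h1
      have h2 : g * x * g⁻¹ ∈ (R.map NS.subtype : Subgroup H) := h1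
      exact Subgroup.map_subtype_le _ h2
    -- `S2 = g⁻¹ S1 g`
    set S2 : Subgroup H := S1.map (MulAut.conj g⁻¹).toMonoidHom with hS2
    have hS2K : S2 ≤ K := by
      rintro _ ⟨s, hs, rfl⟩
      exact hKn.conj_mem s (hS1K hs) g⁻¹
    have hS2P : ∀ x ∈ P, ∀ y ∈ S2, x * y * x⁻¹ ∈ S2 := by
      rintro x hx _ ⟨s, hs, rfl⟩
      refine ⟨(g * x * g⁻¹) * s * (g * x * g⁻¹)⁻¹,
        ((Subgroup.mem_normalizer_iff.1 (hgP x hx)) s).1 hs, ?_⟩
      simp only [MulEquiv.toMonoidHom_eq_coe, MonoidHom.coe_coe, MulAut.conj_apply]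
      group
    have hS20 : S2 ≠ ⊥ := by
      intro h
      apply hS0
      exact (Subgroup.map_eq_bot_iff_of_injective _ (MulAut.conj g⁻¹).injective).1 h
    have hS2e : S2 = K := (hL S2 hS2K hS2P).resolve_left hS20
    have hS1q : IsPGroup q S1 := S.isPGroup'.map _
    have hS2q : IsPGroup q S2 := hS1q.map _
    rw [hS2e] at hS2q
    exact hS2q
  -- `K` is abelian
  have hKab : IsAb K := by
    have _ : Nontrivial K := (Subgroup.nontrivial_iff_ne_bot K).2 hK0
    have hcn : Nontrivial (center K) := hKq.center_nontrivial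
    set Z : Subgroup H := (center K).map K.subtype with hZ
    have hZK : Z ≤ K := Subgroup.map_subtype_le _
    have hZP : ∀ x ∈ P, ∀ y ∈ Z, x * y * x⁻¹ ∈ Z := by
      rintro x hx _ ⟨z, hz, rfl⟩
      refine ⟨⟨x * z * x⁻¹, hKn.conj_mem _ z.2 x⟩, ?_, rfl⟩
      refine Subgroup.mem_center_iff.2 ?_
      intro w
      apply Subtype.ext
      have h1 := Subgroup.mem_center_iff.1 hz ⟨x⁻¹ * w * x, by
        have := hKn.conj_mem _ w.2 x⁻¹
        rwa [inv_inv] at this⟩
      have h2 : x⁻¹ * (w : H) * x * z = z * (x⁻¹ * w * x) := congrArg Subtype.val h1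
      change (w : H) * (x * z * x⁻¹) = x * z * x⁻¹ * w
      calc (w : H) * (x * z * x⁻¹) = x * (x⁻¹ * w * x * z) * x⁻¹ := by group
        _ = x * z * x⁻¹ * w := by rw [h2]; group
    have hZ0 : Z ≠ ⊥ := by
      intro h
      have h1 : center K = ⊥ := (Subgroup.map_eq_bot_iff_of_injective _ K.subtype_injective).1 h
      exact (Subgroup.nontrivial_iff_ne_bot _).1 hcn h1
    have hZe : Z = K := (hL Z hZK hZP).resolve_left hZ0
    intro x hx y hy
    have h1 : x ∈ Z := by rw [hZe]; exact hx
    obtain ⟨z, hz, rfl⟩ := h1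
    have h2 := Subgroup.mem_center_iff.1 hz ⟨y, hy⟩
    have h3 : y * (z : H) = z * y := congrArg Subtype.val h2
    exact h3.symm
  refine ⟨K, hPs, hKn, hKc, htop, hK0, hP0, hKab, hL, ?_⟩
  -- last clause
  set D : Subgroup H := P ⊓ centralizer (K : Set H) with hD
  have hDn : D.Normal := by
    rw [← Subgroup.normalizer_eq_top_iff, ← top_le_iff, ← htop]
    apply sup_le
    · apply le_nm
      intro g hg x hx
      have h1 : g * x = x * g := (Subgroup.mem_centralizer_iff.1 hx.2) g hg
      rw [h1, mul_inv_cancel_right]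
      exact hx
    · apply le_nm
      intro g hg x hx
      refine ⟨P.mul_mem (P.mul_mem hg hx.1) (P.inv_mem hg), ?_⟩
      change g * x * g⁻¹ ∈ centralizer (K : Set H)
      rw [Subgroup.mem_centralizer_iff]
      intro y hy
      have h1 : g⁻¹ * y * g ∈ K := by
        have := hKn.conj_mem y hy g⁻¹
        rwa [inv_inv] at this
      have h2 : g⁻¹ * y * g * x = x * (g⁻¹ * y * g) :=
        (Subgroup.mem_centralizer_iff.1 hx.2) _ h1
      calc y * (g * x * g⁻¹) = g * (g⁻¹ * y * g * x) * g⁻¹ := by group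
        _ = g * x * g⁻¹ * y := by rw [h2]; group
  have hDp : IsPGroup p D := hPp.to_le inf_le_left
  have hD0 : D ≤ ⊥ := hOp.2.2 D hDn hDp
  intro g hg hgc
  have h1 : g ∈ D := ⟨hg, by
    change g ∈ centralizer (K : Set H)
    rw [Subgroup.mem_centralizer_iff]
    intro y hy
    exact (hgc y hy).symm⟩
  exact Subgroup.mem_bot.1 (hD0 h1)

end Q83.TN_G1
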