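import Mathlib
import Pool.Agent.Q2.TN.Stm

/-! Project TN (helper2), job G2: the `J`-step. -/

set_option autoImplicit false

namespace Q83.TN_G2

open Q2.TN Subgroup

theorem card_mul_rel {G : Type} [Group G] {H K : Subgroup G} (h : H ≤ K) :
    Nat.card H * H.relIndex K = Nat.card K := by
  have h1 := Subgroup.relIndex_mul_relIndex ⊥ H K bot_le h
  rwa [Subgroup.relIndex_bot_left, Subgroup.relIndex_bot_left] at h1

/-- F8 for a finite abelian `p`-group `V` (not necessarily of exponent `p`) -/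
theorem core (h8 : S_F8) (h9 : S_F9) {p : ℕ} (hp : p.Prime) (hp2 : p ≠ 2) (Γ V : Type) [Group Γ]
    [Finite Γ] [CommGroup V] [Finite V] [MulDistribMulAction Γ V] (hV : IsPGroup p V)
    (A K : Subgroup Γ) (hAab : IsAb A) (hAp : IsPGroup p A) (hKab : IsAb K)
    (hKc : (Nat.card K).Coprime p) (hAK : ∀ g ∈ A, ∀ x ∈ K, g * x * g⁻¹ ∈ K)
    (hf : ∀ g ∈ A, (∀ x ∈ K, g * x = x * g) → g = 1)
    (hKf : ∀ x ∈ K, (∀ v : V, x • v = v) → x = 1) :
    Nat.card A ^ 2 * Nat.card {v : V // ∀ g ∈ A, g • v = v} ≤ Nat.card V := by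
  set Φ : Subgroup V := (powMonoidHom p : V →* V).range with hΦ
  have hmap : ∀ g : Γ, Φ ≤ Φ.comap (MulDistribMulAction.toMonoidHom V g) := by
    intro g v hv
    obtain ⟨w, rfl⟩ := hv
    exact ⟨g • w, by simp [smul_pow']⟩
  let act : Γ → (V ⧸ Φ) →* (V ⧸ Φ) := fun g =>
    QuotientGroup.map Φ Φ (MulDistribMulAction.toMonoidHom V g) (hmap g)
  have hact : ∀ (g : Γ) (v : V), act g (QuotientGroup.mk v) = QuotientGroup.mk (g • v) :=
    fun g v => rfl
  let inst : MulDistribMulAction Γ (V ⧸ Φ) :=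
    { smul := fun g x => act g x
      one_smul := by
        intro x
        change act 1 x = x
        induction x using QuotientGroup.induction_on with
        | H v => rw [hact, one_smul]
      mul_smul := by
        intro g h x
        change act (g * h) x = act g (act h x)
        induction x using QuotientGroup.induction_on with
        | H v => rw [hact, hact, hact, mul_smul]
      smul_mul := fun g x y => map_mul (act g) x y
      smul_one := fun g => map_one (act g) }
  have hsmul : ∀ (g : Γ) (v : V), g • (QuotientGroup.mk v : V ⧸ Φ) = QuotientGroup.mk (g • v) :=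
    fun g v => rfl
  have hexp : ∀ v : V ⧸ Φ, v ^ p = 1 := by
    intro x
    induction x using QuotientGroup.induction_on with
    | H v =>
      rw [← QuotientGroup.mk_pow]
      exact (QuotientGroup.eq_one_iff _).2 ⟨v, rfl⟩
  have hKf' : ∀ x ∈ K, (∀ v : V ⧸ Φ, x • v = v) → x = 1 := by
    intro x hx hxv
    apply hKf x hx
    refine h9 p hp Γ V x (Nat.card K) inferInstance hV hKc ?_ ?_
    · intro v
      have h1 : x ^ Nat.card K = 1 := by
        have h2 : (⟨x, hx⟩ : K) ^ Nat.card K = 1 := pow_card_eq_one'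
        have h3 : (((⟨x, hx⟩ : K) ^ Nat.card K : K) : Γ) = ((1 : K) : Γ) := congrArg Subtype.val h2
        rw [Subgroup.coe_pow] at h3
        exact h3
      rw [h1, one_smul]
    · intro v
      have h1 := hxv (QuotientGroup.mk v)
      rw [hsmul] at h1
      have h2 : (x • v)⁻¹ * v ∈ Φ := QuotientGroup.eq.1 h1
      have h3 : ((x • v)⁻¹ * v)⁻¹ ∈ Φ := Φ.inv_mem h2
      obtain ⟨w, hw⟩ := h3
      refine ⟨w, ?_⟩
      have h4 : w ^ p = ((x • v)⁻¹ * v)⁻¹ := hw
      rw [h4, mul_inv_rev, inv_inv, div_eq_mul_inv, mul_comm]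
  have key := h8 p hp hp2 Γ (V ⧸ Φ) A K inferInstance inferInstance hexp hAab hAp hKab hKc hAK hf hKf'
  -- the fixed points
  let F : Subgroup V :=
    { carrier := {v | ∀ g ∈ A, g • v = v}
      mul_mem' := by
        intro a b ha hb g hg
        rw [smul_mul', ha g hg, hb g hg]
      one_mem' := by
        intro g _
        exact smul_one g
      inv_mem' := by
        intro a ha g hg
        rw [smul_inv', ha g hg] }
  let F' : Subgroup (V ⧸ Φ) :=
    { carrier := {v | ∀ g ∈ A, g • v = v}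
      mul_mem' := by
        intro a b ha hb g hg
        rw [smul_mul', ha g hg, hb g hg]
      one_mem' := by
        intro g _
        exact smul_one g
      inv_mem' := by
        intro a ha g hg
        rw [smul_inv', ha g hg] }
  have e1 : Nat.card {v : V // ∀ g ∈ A, g • v = v} = Nat.card F := rfl
  have e2 : Nat.card {v : V ⧸ Φ // ∀ g ∈ A, g • v = v} = Nat.card F' := rfl
  rw [e1]
  rw [e2] at key
  have hFF : F ≤ F'.comap (QuotientGroup.mk' Φ) := by
    intro v hv g hg
    change g • (QuotientGroup.mk v : V ⧸ Φ) = QuotientGroup.mk v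
    rw [hsmul, hv g hg]
  have hc1 : Nat.card F ≤ Nat.card (F'.comap (QuotientGroup.mk' Φ)) := Subgroup.card_le_of_le hFF
  have hc2 : (F'.comap (QuotientGroup.mk' Φ)).index = F'.index :=
    F'.index_comap_of_surjective (QuotientGroup.mk'_surjective Φ)
  have hc3 := (F'.comap (QuotientGroup.mk' Φ)).card_mul_index
  have hc4 := F'.card_mul_index
  rw [hc2] at hc3
  have hi : 0 < F'.index := Nat.pos_of_ne_zero F'.index_ne_zero_of_finite
  have hF' : 0 < Nat.card F' := Nat.card_pos
  -- |A|^2 |F'| ≤ |V/Φ| = |F'| i, so |A|^2 ≤ i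
  have h5 : Nat.card A ^ 2 ≤ F'.index := by
    rw [← hc4, mul_comm] at key
    exact Nat.le_of_mul_le_mul_left key hF'
  calc Nat.card A ^ 2 * Nat.card F ≤ F'.index * Nat.card (F'.comap (QuotientGroup.mk' Φ)) :=
        Nat.mul_le_mul h5 hc1
    _ = Nat.card V := by rw [mul_comm]; exact hc3

theorem g2 (h8 : S_F8) (h9 : S_F9) : S_G2 := by
  intro p hp hp2 G _ _ P U _ hPs hUp hUP hCU hNZ K hFr A hA
  obtain ⟨hPK, hKn, hKc, hKP, hK0, hP0, hKab, hKmin, hKf⟩ := hFr
  obtain ⟨hAP, hAab, hAmax⟩ := hA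
  have _ : Fact p.Prime := ⟨hp⟩
  set V0 : Subgroup G := U ⊓ centralizer (U : Set G) with hV0
  have hVn : V0.Normal := inferInstance
  have hVU : V0 ≤ U := inf_le_left
  have hVc : ∀ v ∈ V0, ∀ u ∈ U, u * v = v * u := fun v hv u hu =>
    (Subgroup.mem_centralizer_iff.1 hv.2) u hu
  let _ : CommGroup V0 :=
    { (inferInstance : Group V0) with
      mul_comm := fun a b => Subtype.ext (hVc b.1 b.2 a.1 (hVU a.2)) }
  -- the action of `G ⧸ U` on `V0`
  have hker : ∀ u ∈ U, (MulAut.conjNormal : G →* MulAut V0) u = 1 := by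
    intro u hu
    ext v
    rw [MulAut.conjNormal_apply]
    change u * v.1 * u⁻¹ = v.1
    rw [hVc v.1 v.2 u hu, mul_inv_cancel_right]
  let φ : G ⧸ U →* MulAut V0 := QuotientGroup.lift U (MulAut.conjNormal : G →* MulAut V0) hker
  let _ : MulDistribMulAction (G ⧸ U) V0 := MulDistribMulAction.compHom V0 φ
  have hact : ∀ (g : G) (v : V0), (((QuotientGroup.mk g : G ⧸ U) • v : V0) : G) = g * v.1 * g⁻¹ := by
    intro g v
    exact MulAut.conjNormal_apply g v
  have hVp : IsPGroup p V0 := hUp.to_le hVU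
  set Ab : Subgroup (G ⧸ U) := A.map (QuotientGroup.mk' U) with hAb
  have hPp : IsPGroup p P := hPs.1
  have hAp : IsPGroup p A := hPp.to_le hAP
  have hAbP : Ab ≤ P.map (QuotientGroup.mk' U) := Subgroup.map_mono hAP
  have hAbab : IsAb Ab := by
    rintro _ ⟨a, ha, rfl⟩ _ ⟨b, hb, rfl⟩
    rw [← map_mul, ← map_mul, hAab a ha b hb]
  have hAbp : IsPGroup p Ab := hAp.map _
  have hZ : ∀ z ∈ W false P, z ∈ V0 := by
    intro z hz
    have hz' : z ∈ P ⊓ centralizer (P : Set G) := hz
    have h1 : z ∈ centralizer (U : Set G) := by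
      rw [Subgroup.mem_centralizer_iff]
      intro u hu
      exact (Subgroup.mem_centralizer_iff.1 hz'.2) u (hUP hu)
    exact ⟨hCU h1, h1⟩
  have hfaithK : ∀ x ∈ K, (∀ v : V0, x • v = v) → x = 1 := by
    intro x hx hxv
    obtain ⟨g, rfl⟩ := QuotientGroup.mk_surjective x
    have hgc : ∀ v ∈ V0, g * v * g⁻¹ = v := by
      intro v hv
      have h1 := hxv ⟨v, hv⟩
      have h2 := congrArg Subtype.val h1
      rw [hact] at h2
      exact h2
    have hgP : g ∈ P := by
      rw [← hNZ]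
      rw [Subgroup.mem_normalizer_iff]
      intro z
      constructor
      · intro hz
        rw [hgc z (hZ z hz)]
        exact hz
      · intro hz
        have h3 := hgc _ (hZ _ hz)
        have h4 : g * z * g⁻¹ = z := by
          have h5 : g * (g * z * g⁻¹) * g⁻¹ = g * z * g⁻¹ := h3
          have h6 : g * z * g⁻¹ = z := by
            have h7 := congrArg (fun y => g⁻¹ * y * g) h5
            simpa [mul_assoc] using h7
          exact h6
        rw [h4] at hz
        exact hz
    have hxP : (QuotientGroup.mk g : G ⧸ U) ∈ P.map (QuotientGroup.mk' U) := ⟨g, hgP, rfl⟩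
    have h1 : orderOf (QuotientGroup.mk g : G ⧸ U) ∣ Nat.card K := Subgroup.orderOf_dvd_natCard K hx
    obtain ⟨k, hk⟩ := (IsPGroup.iff_orderOf.1 hPK.1) ⟨_, hxP⟩
    rw [Subgroup.orderOf_mk] at hk
    rw [hk] at h1
    have h2 : Nat.Coprime (p ^ k) (p ^ k) :=
      Nat.Coprime.coprime_dvd_left h1 (Nat.Coprime.pow_right k hKc)
    have h3 : p ^ k = 1 := (Nat.coprime_self _).1 h2
    rw [h3] at hk
    exact orderOf_eq_one_iff.1 hk
  have key := core h8 h9 hp hp2 (G ⧸ U) V0 hVp Ab K hAbab hAbp hKab hKc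
    (fun g _ x hx => hKn.conj_mem x hx g) (fun g hg h => hKf g (hAbP hg) h) hfaithK
  -- counting
  set Fx := {v : V0 // ∀ g ∈ Ab, g • v = v} with hFx
  have hFpos : 0 < Nat.card Fx := by
    have _ : Nonempty Fx := ⟨⟨1, fun g _ => smul_one g⟩⟩
    exact Nat.card_pos
  -- `V0 ⊓ A` embeds in the fixed points
  have hVA : Nat.card (V0 ⊓ A : Subgroup G) ≤ Nat.card Fx := by
    let f : (V0 ⊓ A : Subgroup G) → Fx := fun v => ⟨⟨v.1, v.2.1⟩, by
      rintro _ ⟨a, ha, rfl⟩
      apply Subtype.ext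
      rw [QuotientGroup.mk'_apply, hact]
      change a * v.1 * a⁻¹ = v.1
      rw [hAab a ha v.1 v.2.2, mul_inv_cancel_right]⟩
    apply Nat.card_le_card_of_injective f
    intro v w h
    have h1 : (f v).1.1 = (f w).1.1 := by rw [h]
    exact Subtype.ext h1
  -- the abelian subgroup `V0 (A ∩ U)`
  set B : Subgroup G := V0 ⊔ (A ⊓ U) with hB
  have hBP : B ≤ P := sup_le (hVU.trans hUP) (inf_le_left.trans hAP)
  have hBab : IsAb B := by
    have hmem : ∀ x ∈ B, ∃ v ∈ V0, ∃ a ∈ A ⊓ U, v * a = x := fun x hx =>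
      Subgroup.mem_sup_of_normal_left.1 hx
    intro x hx y hy
    obtain ⟨v, hv, a, ha, rfl⟩ := hmem x hx
    obtain ⟨w, hw, b, hb, rfl⟩ := hmem y hy
    have c1 : a * w = w * a := hVc w hw a ha.2
    have c2 : b * v = v * b := hVc v hv b hb.2
    have c3 : v * w = w * v := hVc w hw v (hVU hv)
    have c4 : a * b = b * a := hAab a ha.1 b hb.1
    calc v * a * (w * b) = v * (a * w) * b := by group
      _ = v * w * (a * b) := by rw [c1]; group
      _ = w * (v * b) * a := by rw [c3, c4]; group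
      _ = w * b * (v * a) := by rw [← c2]; group
  have hcB : Nat.card B ≤ Nat.card A := hAmax B hBP hBab
  have hr1 : V0.relIndex B = V0.relIndex (A ⊓ U) := by
    rw [hB, sup_comm]
    exact Subgroup.relIndex_sup_right _ _
  have hb1 : Nat.card V0 * V0.relIndex B = Nat.card B :=
    card_mul_rel le_sup_left
  have hb2 : Nat.card (V0 ⊓ (A ⊓ U) : Subgroup G) * V0.relIndex (A ⊓ U) =
      Nat.card (A ⊓ U : Subgroup G) := by
    rw [← Subgroup.inf_relIndex_right]
    exact card_mul_rel inf_le_right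
  have hVAU : V0 ⊓ (A ⊓ U) = V0 ⊓ A := by
    apply le_antisymm
    · exact le_inf inf_le_left (inf_le_right.trans inf_le_left)
    · exact le_inf inf_le_left (le_inf inf_le_right (inf_le_left.trans hVU))
  rw [hVAU] at hb2
  have hb3 : Nat.card Ab * Nat.card (A ⊓ U : Subgroup G) = Nat.card A := by
    have h1 : (QuotientGroup.mk' U).ker.relIndex A = Nat.card Ab :=
      Subgroup.relIndex_ker _ _
    rw [QuotientGroup.ker_mk'] at h1
    rw [← h1, ← Subgroup.inf_relIndex_left, mul_comm]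
    exact card_mul_rel inf_le_left
  -- conclusion
  have hAUpos : 0 < Nat.card (A ⊓ U : Subgroup G) := Nat.card_pos
  have h1 : Nat.card V0 ≤ Nat.card Ab * Nat.card Fx := by
    have h2 : Nat.card V0 * Nat.card (A ⊓ U : Subgroup G) ≤
        Nat.card Ab * Nat.card Fx * Nat.card (A ⊓ U : Subgroup G) := by
      calc Nat.card V0 * Nat.card (A ⊓ U : Subgroup G)
          = Nat.card (V0 ⊓ A : Subgroup G) * Nat.card B := by
            rw [← hb2, ← hb1, hr1]; ring
        _ ≤ Nat.card Fx * Nat.card A := Nat.mul_le_mul hVA hcB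
        _ = Nat.card Ab * Nat.card Fx * Nat.card (A ⊓ U : Subgroup G) := by
            rw [← hb3]; ring
    exact Nat.le_of_mul_le_mul_right h2 hAUpos
  have hApos : 0 < Nat.card Ab := Nat.card_pos
  have h2 : Nat.card Ab ≤ 1 := by
    have h3 : Nat.card Ab ^ 2 * Nat.card Fx ≤ Nat.card Ab * Nat.card Fx := key.trans h1
    have h4 : Nat.card Ab ^ 2 ≤ Nat.card Ab := Nat.le_of_mul_le_mul_right h3 hFpos
    nlinarith
  have h3 : Ab = ⊥ := (Subgroup.card_le_one_iff_eq_bot _).1 h2
  intro a ha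
  have h4 : QuotientGroup.mk' U a ∈ Ab := ⟨a, ha, rfl⟩
  rw [h3, Subgroup.mem_bot] at h4
  exact (QuotientGroup.eq_one_iff a).1 h4

end Q83.TN_G2
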