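import Mathlib
import Pool.Agent.Q2.TN.Stm

/-! Project TN (helper2), job G4. -/

set_option autoImplicit false

namespace Q83.TN_G4

open Q2.TN Subgroup

theorem g4 (h2 : S_A2) (h6 : S_A6) (hd : S_D2) : S_G4 := by
  intro p hp G _ _ P U _ hPs hOp hU0 hM hTH
  have _ : Fact p.Prime := ⟨hp⟩
  set π := QuotientGroup.mk' U with hπ
  have hsurj : Function.Surjective π := QuotientGroup.mk'_surjective U
  have hPb : IsSyl p (P.map π) := (h6 p hp G P hPs).2.1 (G ⧸ U) π hsurj
  by_cases h0 : P.map π = ⊥
  · refine ⟨⊤, inferInstance, ?_, 0, ?_⟩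
    · rw [h0] at hPb
      have h1 := hPb.2
      rw [Subgroup.index_bot] at h1
      rw [Subgroup.card_top]
      exact Nat.Coprime.symm ((Nat.Prime.coprime_iff_not_dvd hp).2 h1)
    · rw [Subgroup.index_top, pow_zero]
  · apply hTH _ hPb
    intro b
    obtain ⟨hD, -⟩ := hd p hp (G ⧸ U) (P.map π)
    obtain ⟨hW1, hW2, hW3, hW4⟩ := hD b
    set X := W b (P.map π) with hX
    have hX0 : X ≠ ⊥ := hW2 hPb.1 h0
    set M : Subgroup G := (Nm X).comap π with hMdef
    have hPM : P ≤ M := by
      rw [hMdef, ← Subgroup.map_le_iff_le_comap]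
      exact Subgroup.le_normalizer.trans hW3
    have hMtop : M ≠ ⊤ := by
      intro h
      have h1 : Nm X = ⊤ := by
        rw [eq_top_iff]
        intro y _
        obtain ⟨g, rfl⟩ := hsurj y
        have h2 : g ∈ M := by rw [h]; trivial
        exact h2
      have hXn : X.Normal := Subgroup.normalizer_eq_top_iff.1 h1
      have hXp : IsPGroup p X := hPb.1.to_le hW1
      have hYp : IsPGroup p (X.comap π) := by
        apply hXp.comap_of_ker_isPGroup
        rw [hπ, QuotientGroup.ker_mk']
        exact hOp.2.1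
      have hYn : (X.comap π).Normal := hXn.comap π
      have hYU : X.comap π ≤ U := hOp.2.2 _ hYn hYp
      apply hX0
      rw [eq_bot_iff]
      intro y hy
      obtain ⟨g, rfl⟩ := hsurj y
      have h2 : g ∈ U := hYU hy
      rw [Subgroup.mem_bot]
      exact (QuotientGroup.eq_one_iff g).2 h2
    exact h2 p hp M (Nm X) (π.subgroupComap (Nm X))
      (π.subgroupComap_surjective_of_surjective _ hsurj) (hM M hPM hMtop)

end Q83.TN_G4
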