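import Mathlib
import Pool.Agent.Q2.TN.Stm

/-! Project TN (helper2), job M9: the minimal `T`. -/

set_option autoImplicit false

namespace Q83.TN_M9

open Q2.TN Subgroup

theorem closure_normal {G : Type} [Group G] (S : Set G) (h : ∀ s ∈ S, ∀ g : G, g * s * g⁻¹ ∈ S) :
    (closure S).Normal := by
  refine ⟨fun x hx g => ?_⟩
  induction hx using Subgroup.closure_induction with
  | mem x hx => exact subset_closure (h x hx g)
  | one => rw [mul_one, mul_inv_cancel]; exact one_mem _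
  | mul x y _ _ hx hy =>
    have e : g * (x * y) * g⁻¹ = (g * x * g⁻¹) * (g * y * g⁻¹) := by group
    rw [e]
    exact mul_mem hx hy
  | inv x _ hx =>
    have e : g * x⁻¹ * g⁻¹ = (g * x * g⁻¹)⁻¹ := by group
    rw [e]
    exact inv_mem hx

theorem m9 : S_M9 := by
  intro p hp G _ _ D U K₀ hDn hUn hUp hDU hKn hex
  have _ : Fact p.Prime := ⟨hp⟩
  -- the set of `p'`-elements of `K₀`
  set Es : Set G := {e : G | e ∈ K₀ ∧ ∃ m : ℕ, m.Coprime p ∧ e ^ m = 1} with hEs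
  have hEc : ∀ e ∈ Es, ∀ g : G, g * e * g⁻¹ ∈ Es := by
    rintro e ⟨he, m, hm, hem⟩ g
    refine ⟨hKn.conj_mem e he g, m, hm, ?_⟩
    rw [conj_pow, hem, mul_one, mul_inv_cancel]
  set Fam : Set (Subgroup G) := {T | T.Normal ∧ T ≤ D ∧ ∃ e ∈ Es, ∃ t ∈ T, e * t ≠ t * e} with hFam
  have hne : Fam.Nonempty := by
    obtain ⟨q, m, hq, hm, hqm, d, hd, hqd⟩ := hex
    exact ⟨D, hDn, le_rfl, q, ⟨hq, m, hm, hqm⟩, d, hd, hqd⟩
  obtain ⟨T, hT⟩ := (Set.toFinite Fam).exists_minimal hne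
  obtain ⟨⟨hTn, hTD, e₀, he₀, t₀, ht₀, hne₀⟩, hTmin⟩ := hT
  set S : Subgroup G → Set G := fun T => {c : G | ∃ (e t : G) (m : ℕ), e ∈ K₀ ∧ m.Coprime p ∧
    e ^ m = 1 ∧ t ∈ T ∧ c = t * e * t⁻¹ * e⁻¹} with hS
  have hCn : (closure (S T)).Normal := by
    apply closure_normal
    rintro c ⟨e, t, m, he, hm, hem, ht, rfl⟩ g
    refine ⟨g * e * g⁻¹, g * t * g⁻¹, m, hKn.conj_mem e he g, hm, ?_, hTn.conj_mem t ht g, ?_⟩
    · rw [conj_pow, hem, mul_one, mul_inv_cancel]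
    · group
  have hCT : closure (S T) ≤ T := by
    rw [Subgroup.closure_le]
    rintro c ⟨e, t, m, he, hm, hem, ht, rfl⟩
    have h1 : t * e * t⁻¹ * e⁻¹ = t * (e * t⁻¹ * e⁻¹) := by group
    change t * e * t⁻¹ * e⁻¹ ∈ T
    rw [h1]
    exact T.mul_mem ht (hTn.conj_mem _ (T.inv_mem ht) e)
  have hTU : T ≤ U := hTD.trans hDU
  have hCF : closure (S T) ∈ Fam := by
    refine ⟨hCn, hCT.trans hTD, e₀, he₀, t₀ * e₀ * t₀⁻¹ * e₀⁻¹, ?_, ?_⟩
    · obtain ⟨h1, m, hm, hem⟩ := he₀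
      exact subset_closure ⟨e₀, t₀, m, h1, hm, hem, ht₀, rfl⟩
    · intro hcomm
      obtain ⟨h1, m, hm, hem⟩ := he₀
      set c := t₀ * e₀ * t₀⁻¹ * e₀⁻¹ with hc
      have hcU : c ∈ U := by
        apply hTU
        apply hCT
        exact subset_closure ⟨e₀, t₀, m, h1, hm, hem, ht₀, rfl⟩
      have h2 : t₀ * e₀ * t₀⁻¹ = c * e₀ := by rw [hc]; group
      have h3 : (c * e₀) ^ m = 1 := by rw [← h2, conj_pow, hem, mul_one, mul_inv_cancel]
      have h4 : Commute c e₀ := hcomm.symm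
      rw [h4.mul_pow, hem, mul_one] at h3
      obtain ⟨k, hk⟩ := (IsPGroup.iff_orderOf.1 hUp) ⟨c, hcU⟩
      rw [Subgroup.orderOf_mk] at hk
      have h5 : orderOf c ∣ m := orderOf_dvd_of_pow_eq_one h3
      rw [hk] at h5
      have h6 : Nat.Coprime (p ^ k) (p ^ k) :=
        Nat.Coprime.coprime_dvd_left h5 (Nat.Coprime.pow_right k hm)
      have h7 : p ^ k = 1 := (Nat.coprime_self _).1 h6
      rw [h7] at hk
      have h8 : c = 1 := orderOf_eq_one_iff.1 hk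
      apply hne₀
      have h9 : t₀ * e₀ * t₀⁻¹ = e₀ := by rw [h2, h8, one_mul]
      calc e₀ * t₀ = t₀ * e₀ * t₀⁻¹ * t₀ := by rw [h9]
        _ = t₀ * e₀ := by group
  have hTC : T = closure (S T) := le_antisymm (hTmin hCF hCT) hCT
  -- the maximal normal subgroup below `T`
  set Fam2 : Set (Subgroup G) := {M | M.Normal ∧ M < T} with hFam2
  have hne2 : Fam2.Nonempty := by
    refine ⟨⊥, inferInstance, bot_lt_iff_ne_bot.2 ?_⟩
    intro h
    rw [h, Subgroup.mem_bot] at ht₀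
    apply hne₀
    rw [ht₀, mul_one, one_mul]
  obtain ⟨M, hM⟩ := (Set.toFinite Fam2).exists_maximal hne2
  obtain ⟨⟨hMn, hMT⟩, hMmax⟩ := hM
  have hii : ∀ e ∈ Es, ∀ x ∈ M, e * x = x * e := by
    intro e he x hx
    by_contra hcon
    have h1 : M ∈ Fam := ⟨hMn, hMT.le.trans hTD, e, he, x, hx, hcon⟩
    exact absurd (hTmin h1 hMT.le) (not_le_of_gt hMT)
  refine ⟨M, T, hTD, ⟨hMn, hTn, hMT, ?_⟩, ?_, ?_, ?_, hTC⟩
  · intro L hL hML hLT
    by_cases h : L = T
    · exact Or.inr h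
    · left
      have h1 : L ∈ Fam2 := ⟨hL, lt_of_le_of_ne hLT h⟩
      exact le_antisymm (hMmax h1 hML) hML
  · intro e m he hm hem x hx
    exact hii e ⟨he, m, hm, hem⟩ x hx
  · by_contra hcon
    push Not at hcon
    have h1 : closure (S T) ≤ M := by
      rw [Subgroup.closure_le]
      rintro c ⟨e, t, m, he, hm, hem, ht, rfl⟩
      exact hcon e m he hm hem t ht
    rw [← hTC] at h1
    exact absurd h1 (not_le_of_gt hMT)
  · intro x hx t ht
    have h1 : T ≤ centralizer ({x} : Set G) := by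
      rw [hTC, Subgroup.closure_le]
      rintro c ⟨e, t, m, he, hm, hem, ht, rfl⟩
      change t * e * t⁻¹ * e⁻¹ ∈ centralizer ({x} : Set G)
      rw [Subgroup.mem_centralizer_singleton_iff]
      have hE : e ∈ Es := ⟨he, m, hm, hem⟩
      have c1 : Commute e x := hii e hE x hx
      have c2 : Commute (t * e * t⁻¹) x := hii _ (hEc e hE t) x hx
      exact (c2.mul_left c1.inv_left)
    have h2 := h1 ht
    rw [Subgroup.mem_centralizer_singleton_iff] at h2
    exact h2.symm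

end Q83.TN_M9
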