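import Pool.Agent.Q141.CP.Stm

/-! # Project CP (helper141), job INJ: the number of walks with given exit numbers -/

set_option autoImplicit false

namespace Pool.Agent.Q83.CP_INJ

open Finset
open Pool.Agent.Q141.CP
open Pool.Agent.Q285.LogFact (G)
open Pool.Agent.Q285.BregCol (Fam deg mem_Fam bregman)

variable {D n : ℕ}

theorem stepv_inj : Function.Injective (stepv : Dir D → Vtx D) := by
  rintro ⟨i, b⟩ ⟨j, c⟩ h
  have hij : i = j := by
    by_contra hne
    have h1 := congrFun h i
    simp only [stepv, Pi.single_eq_same, Pi.single_eq_of_ne hne] at h1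
    cases b <;> simp at h1
  subst hij
  have h1 := congrFun h i
  simp only [stepv, Pi.single_eq_same] at h1
  cases b <;> cases c <;> simp_all

theorem stepv_neg (a : Dir D) : stepv (a.1, !a.2) = - stepv a := by
  obtain ⟨i, b⟩ := a
  cases b <;> simp [stepv, ← Pi.single_neg]

theorem pos_zero (s : Fin n → Dir D) : pos s 0 = 0 := by
  simp [pos]

theorem pos_succ (s : Fin n → Dir D) {t : ℕ} (ht : t < n) : pos s (t + 1) = pos s t + stepv (s ⟨t, ht⟩) := by
  unfold pos
  have h1 : ∀ j : Fin n, (if (j : ℕ) < t + 1 then stepv (s j) else 0) =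
      (if (j : ℕ) < t then stepv (s j) else 0) + (if j = ⟨t, ht⟩ then stepv (s j) else 0) := by
    intro j
    by_cases h2 : j = ⟨t, ht⟩
    · subst h2
      simp
    · have h3 : (j : ℕ) ≠ t := fun h => h2 (Fin.ext h)
      rw [if_neg h2, add_zero]
      by_cases h4 : (j : ℕ) < t
      · rw [if_pos h4, if_pos (by omega)]
      · rw [if_neg h4, if_neg (by omega)]
  rw [Finset.sum_congr rfl fun j _ => h1 j, Finset.sum_add_distrib, Finset.sum_ite_eq' Finset.univ,
    if_pos (Finset.mem_univ _)]

/-- the times before `n` at the point `x` -/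
def pr (s : Fin n → Dir D) (x : Vtx D) (t : ℕ) : Prop := t < n ∧ pos s t = x

instance (s : Fin n → Dir D) (x : Vtx D) : DecidablePred (pr s x) := fun t => by
  unfold pr
  infer_instance

theorem fin_pr (s : Fin n → Dir D) (x : Vtx D) : (Set.ofPred (pr s x)).Finite :=
  (Set.finite_lt_nat n).subset fun _ h => h.1

theorem card_pr (s : Fin n → Dir D) (x : Vtx D) (hf : (Set.ofPred (pr s x)).Finite) :
    hf.toFinset.card = Pool.Agent.Q141.CP.ext s x := by
  unfold Pool.Agent.Q141.CP.ext
  congr 1
  ext t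
  simp [pr]

/-- the `i`-th time at `x` -/
noncomputable def T (s : Fin n → Dir D) (x : Vtx D) (i : ℕ) : ℕ := Nat.nth (pr s x) i

theorem T_mem {s : Fin n → Dir D} {x : Vtx D} {i : ℕ} (h : i < Pool.Agent.Q141.CP.ext s x) : T s x i < n ∧ pos s (T s x i) = x :=
  Nat.nth_mem_of_lt_card (fin_pr s x) (by rwa [card_pr])

theorem count_T {s : Fin n → Dir D} {x : Vtx D} {i : ℕ} (h : i < Pool.Agent.Q141.CP.ext s x) :
    Nat.count (pr s x) (T s x i) = i :=
  Nat.count_nth fun hf => by rwa [card_pr]

theorem T_count {s : Fin n → Dir D} {t : ℕ} (ht : t < n) :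
    T s (pos s t) (Nat.count (pr s (pos s t)) t) = t :=
  Nat.nth_count (⟨ht, rfl⟩ : pr s (pos s t) t)

theorem count_lt {s : Fin n → Dir D} {t : ℕ} (ht : t < n) :
    Nat.count (pr s (pos s t)) t < Pool.Agent.Q141.CP.ext s (pos s t) := by
  have h := Nat.count_lt_card (fin_pr s (pos s t)) (⟨ht, rfl⟩ : pr s (pos s t) t)
  rwa [card_pr] at h

/-- the slots -/
def Sl (V : Finset (Vtx D)) (e : Vtx D → ℕ) : Finset ((_ : Vtx D) × ℕ) :=
  V.sigma fun x => Finset.range (e x)

theorem pos_mem (s : Fin n → Dir D) {t : ℕ} (ht : t ≤ n) : pos s t ∈ tr s :=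
  Finset.mem_image.2 ⟨t, Finset.mem_range.2 (by omega), rfl⟩

/-- counting slots by times -/
theorem card_slots {V : Finset (Vtx D)} {e : Vtx D → ℕ} {s : Fin n → Dir D} (hV : tr s = V)
    (he : ∀ x, Pool.Agent.Q141.CP.ext s x = e x) (P : ℕ → Prop) [DecidablePred P] :
    ((Sl V e).filter fun q => P (T s q.1 q.2)).card = ((Finset.range n).filter P).card := by
  refine Finset.card_bij (fun q _ => T s q.1 q.2) ?_ ?_ ?_
  · rintro ⟨x, i⟩ h
    rw [Finset.mem_filter, Sl, Finset.mem_sigma] at h
    obtain ⟨⟨hx, hi⟩, hP⟩ := h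
    rw [Finset.mem_filter, Finset.mem_range]
    refine ⟨(T_mem ?_).1, hP⟩
    rw [he]
    exact Finset.mem_range.1 hi
  · rintro ⟨x, i⟩ h ⟨x', i'⟩ h' hT
    rw [Finset.mem_filter, Sl, Finset.mem_sigma] at h h'
    have h1 : i < Pool.Agent.Q141.CP.ext s x := by rw [he]; exact Finset.mem_range.1 h.1.2
    have h2 : i' < Pool.Agent.Q141.CP.ext s x' := by rw [he]; exact Finset.mem_range.1 h'.1.2
    dsimp only at hT
    have h3 : x = x' := by
      rw [← (T_mem h1).2, ← (T_mem h2).2, hT]
    subst h3
    have h4 : i = i' := by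
      rw [← count_T h1, ← count_T h2, hT]
    rw [h4]
  · intro t ht
    rw [Finset.mem_filter, Finset.mem_range] at ht
    refine ⟨⟨pos s t, Nat.count (pr s (pos s t)) t⟩, ?_, T_count ht.1⟩
    rw [Finset.mem_filter, Sl, Finset.mem_sigma]
    refine ⟨⟨?_, ?_⟩, ?_⟩
    · rw [← hV]
      exact pos_mem s ht.1.le
    · rw [Finset.mem_range, ← he]
      exact count_lt ht.1
    · dsimp only
      rw [T_count ht.1]
      exact ht.2

theorem loc_eq (s : Fin n → Dir D) (z : Vtx D) :
    loc s z = ((Finset.range n).filter fun t => pos s (t + 1) = z).card := by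
  unfold loc
  symm
  refine Finset.card_bij (fun t _ => t + 1) ?_ ?_ ?_
  · intro t ht
    rw [Finset.mem_filter, Finset.mem_range] at ht
    rw [Finset.mem_filter, Finset.mem_Icc]
    exact ⟨⟨by omega, by omega⟩, ht.2⟩
  · intro a _ b _ h
    omega
  · intro t ht
    rw [Finset.mem_filter, Finset.mem_Icc] at ht
    refine ⟨t - 1, ?_, by omega⟩
    rw [Finset.mem_filter, Finset.mem_range]
    refine ⟨by omega, ?_⟩
    rw [Nat.sub_add_cancel ht.1.1]
    exact ht.2

/-- transfer through an enumeration of the slots -/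
theorem card_transfer {S : Finset ((_ : Vtx D) × ℕ)} (σ : Fin n ≃ S) (P : ((_ : Vtx D) × ℕ) → Prop)
    [DecidablePred P] :
    ((Finset.univ : Finset (Fin n)).filter fun i => P (σ i).1).card = (S.filter P).card := by
  refine Finset.card_bij (fun i _ => (σ i).1) ?_ ?_ ?_
  · intro i hi
    rw [Finset.mem_filter] at hi ⊢
    exact ⟨(σ i).2, hi.2⟩
  · intro i _ j _ h
    exact σ.injective (Subtype.ext h)
  · intro q hq
    rw [Finset.mem_filter] at hq
    refine ⟨σ.symm ⟨q, hq.1⟩, ?_, ?_⟩
    · rw [Finset.mem_filter]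
      refine ⟨Finset.mem_univ _, ?_⟩
      rw [σ.apply_symm_apply]
      exact hq.2
    · rw [σ.apply_symm_apply]

theorem t_INJ : S_INJ := by
  classical
  intro D n V y e l hl
  rcases (cls n V y e).eq_empty_or_nonempty with h0 | ⟨s₀, hs₀⟩
  · rw [h0, Set.ncard_empty, Nat.cast_zero, zero_mul]
    exact (Real.exp_pos _).le
  have hcardS : (Sl V e).card = n := by
    have h1 := card_slots hs₀.1 hs₀.2.2 (fun _ => True)
    simpa using h1
  let σ : Fin n ≃ (Sl V e) := ((Sl V e).equivFinOfCardEq hcardS).symm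
  let A : Fin n → Finset V := fun i => Finset.univ.filter fun z : V => ∃ a : Dir D, z.1 = (σ i).1.1 + stepv a
  let α : V → ℕ := fun z => l z.1
  have hσ : ∀ s ∈ cls n V y e, ∀ i : Fin n, (σ i).1.2 < Pool.Agent.Q141.CP.ext s (σ i).1.1 := by
    intro s hs i
    have h1 : (σ i).1 ∈ V.sigma fun x => Finset.range (e x) := (σ i).2
    rw [Finset.mem_sigma, Finset.mem_range] at h1
    rw [hs.2.2]
    exact h1.2
  -- the function of a walk
  have hF : ∀ s ∈ cls n V y e, ∃ F ∈ Fam A α, ∀ i : Fin n,
      ((F i : V) : Vtx D) = pos s (T s (σ i).1.1 (σ i).1.2 + 1) := by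
    intro s hs
    have hmem : ∀ i : Fin n, pos s (T s (σ i).1.1 (σ i).1.2 + 1) ∈ V := by
      intro i
      have h := pos_mem s (t := T s (σ i).1.1 (σ i).1.2 + 1) (T_mem (hσ s hs i)).1
      rw [hs.1] at h
      exact h
    refine ⟨fun i => ⟨_, hmem i⟩, ?_, fun i => rfl⟩
    rw [mem_Fam]
    refine ⟨fun i => ?_, fun z => ?_⟩
    · rw [Finset.mem_filter]
      refine ⟨Finset.mem_univ _, s ⟨_, (T_mem (hσ s hs i)).1⟩, ?_⟩
      have h := pos_succ s (T_mem (hσ s hs i)).1
      refine h.trans ?_
      congr 1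
      exact (T_mem (hσ s hs i)).2
    · have h1 : (Finset.univ.filter fun i : Fin n =>
          ((⟨_, hmem i⟩ : V) = z)).card =
          ((Finset.univ : Finset (Fin n)).filter fun i =>
            (fun q : (_ : Vtx D) × ℕ => pos s (T s q.1 q.2 + 1) = z.1) (σ i).1).card := by
        congr 1
        ext i
        simp only [Finset.mem_filter, Finset.mem_univ, true_and]
        exact Subtype.ext_iff
      rw [h1, card_transfer σ (fun q : (_ : Vtx D) × ℕ => pos s (T s q.1 q.2 + 1) = z.1)]
      rw [card_slots hs.1 hs.2.2 (fun t => pos s (t + 1) = z.1), ← loc_eq, hl s hs]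
  have hVne : Nonempty V := ⟨⟨pos s₀ 0, by
    have h := pos_mem s₀ (Nat.zero_le n)
    rw [hs₀.1] at h
    exact h⟩⟩
  choose! F hFm hFe using hF
  have hinj : Set.InjOn F (cls n V y e) := by
    intro s hs s' hs' hss
    have hpos : ∀ t ≤ n, ∀ t' ≤ t, pos s t' = pos s' t' := by
      intro t
      induction t with
      | zero =>
        intro _ t' ht'
        have : t' = 0 := by omega
        rw [this, pos_zero, pos_zero]
      | succ t ih =>
        intro ht t' ht'
        have ih' := ih (by omega)
        rcases Nat.lt_or_ge t' (t + 1) with h | h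
        · exact ih' t' (by omega)
        · have : t' = t + 1 := by omega
          subst this
          have htn : t < n := by omega
          have hx := ih' t le_rfl
          have hc : Nat.count (pr s (pos s t)) t = Nat.count (pr s' (pos s' t)) t := by
            rw [← hx, Nat.count_eq_card_filter_range, Nat.count_eq_card_filter_range]
            congr 1
            apply Finset.filter_congr
            intro u hu
            rw [Finset.mem_range] at hu
            unfold pr
            rw [ih' u hu.le]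
          have hq : (⟨pos s t, Nat.count (pr s (pos s t)) t⟩ : (_ : Vtx D) × ℕ) ∈ Sl V e := by
            rw [Sl, Finset.mem_sigma, Finset.mem_range]
            refine ⟨?_, ?_⟩
            · rw [← hs.1]
              exact pos_mem s htn.le
            · dsimp only
              rw [← hs.2.2]
              exact count_lt htn
          obtain ⟨i, hi⟩ : ∃ i, σ i = ⟨_, hq⟩ := ⟨σ.symm ⟨_, hq⟩, σ.apply_symm_apply _⟩
          have e1 := hFe s hs i
          have e2 := hFe s' hs' i
          rw [hi] at e1 e2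
          dsimp only at e1 e2
          rw [T_count htn] at e1
          rw [hc, hx, T_count htn] at e2
          rw [← e1, ← e2, hss]
    funext j
    apply stepv_inj
    have h1 := pos_succ s j.2
    have h2 := pos_succ s' j.2
    rw [hpos n le_rfl (j + 1) (by omega), hpos n le_rfl j (by omega), h2] at h1
    exact (add_left_cancel h1).symm
  have hcard : (cls n V y e).ncard ≤ (Fam A α).card := by
    rw [← Set.ncard_coe_finset]
    exact Set.ncard_le_ncard_of_injOn F (fun s hs => hFm s hs) hinj (Finset.finite_toSet _)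
  -- degrees
  have hdeg : ∀ z : V, deg A z = dg V e z.1 := by
    intro z
    unfold deg
    have h1 : (Finset.univ.filter fun i : Fin n => z ∈ A i).card =
        ((Finset.univ : Finset (Fin n)).filter fun i =>
          (fun q : (_ : Vtx D) × ℕ => ∃ a : Dir D, z.1 = q.1 + stepv a) (σ i).1).card := by
      congr 1
      ext i
      simp only [A, Finset.mem_filter, Finset.mem_univ, true_and]
    rw [h1, card_transfer σ (fun q : (_ : Vtx D) × ℕ => ∃ a : Dir D, z.1 = q.1 + stepv a)]
    have h2 : (Sl V e).filter (fun q : (_ : Vtx D) × ℕ => ∃ a : Dir D, z.1 = q.1 + stepv a) =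
        (V.filter fun x => ∃ a : Dir D, z.1 = x + stepv a).sigma fun x => Finset.range (e x) := by
      ext ⟨x, i⟩
      simp only [Sl, Finset.mem_filter, Finset.mem_sigma]
      tauto
    rw [h2, Finset.card_sigma]
    simp only [Finset.card_range]
    unfold dg
    rw [← Finset.sum_filter]
    symm
    refine Finset.sum_bij (fun a _ => z.1 + stepv a) ?_ ?_ ?_ ?_
    · intro a ha
      rw [Finset.mem_filter] at ha ⊢
      refine ⟨ha.2, (a.1, !a.2), ?_⟩
      rw [stepv_neg, add_neg_cancel_right]
    · intro a _ b _ h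
      exact stepv_inj (add_left_cancel h)
    · intro x hx
      rw [Finset.mem_filter] at hx
      obtain ⟨hx, a, ha⟩ := hx
      have h3 : z.1 + stepv (a.1, !a.2) = x := by
        rw [stepv_neg, ha, add_neg_cancel_right]
      refine ⟨(a.1, !a.2), ?_, h3⟩
      rw [Finset.mem_filter]
      refine ⟨Finset.mem_univ _, ?_⟩
      rw [h3]
      exact hx
    · intro a _
      rfl
  have hne : (Fam A α).Nonempty := ⟨F s₀, hFm s₀ hs₀⟩
  have hb := bregman n A α hne
  have hpos : (0 : ℝ) < ((Fam A α).card * ∏ j, (α j).factorial : ℕ) := by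
    have h1 : 0 < (Fam A α).card := Finset.card_pos.2 hne
    have h2 : 0 < ∏ j, (α j).factorial := Finset.prod_pos fun j _ => Nat.factorial_pos _
    exact_mod_cast Nat.mul_pos h1 h2
  have hb' := (Real.log_le_iff_le_exp hpos).1 hb
  have e1 : ∑ j : V, (α j : ℝ) * G (deg A j) = ∑ x ∈ V, (l x : ℝ) * G (dg V e x) := by
    rw [← Finset.sum_coe_sort V (fun x => (l x : ℝ) * G (dg V e x))]
    exact Finset.sum_congr rfl fun j _ => by rw [hdeg]
  have e2 : ∏ j : V, (α j).factorial = ∏ x ∈ V, (l x).factorial := by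
    rw [← Finset.prod_coe_sort V (fun x => (l x).factorial)]
  rw [e1, e2] at hb'
  refine le_trans ?_ hb'
  push_cast
  exact mul_le_mul_of_nonneg_right (by exact_mod_cast hcard)
    (Finset.prod_nonneg fun x _ => by positivity)

end Pool.Agent.Q83.CP_INJ
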