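import Mathlib

set_option autoImplicit false
set_option linter.unusedSectionVars false
open NormedSpace Filter Topology

namespace Q83.ConvPow

section algebra

variable {𝔸 : Type*} [NormedRing 𝔸] [NormedAlgebra ℂ 𝔸] [CompleteSpace 𝔸] [NormOneClass 𝔸]

lemma exp_add' {x y : 𝔸} (h : Commute x y) : exp (x + y) = exp x * exp y := by
  let _ : NormedAlgebra ℚ 𝔸 := NormedAlgebra.restrictScalars ℚ ℂ 𝔸
  exact exp_add_of_commute h

lemma exp_nsmul' (n : ℕ) (x : 𝔸) : exp (n • x) = exp x ^ n := by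
  let _ : NormedAlgebra ℚ 𝔸 := NormedAlgebra.restrictScalars ℚ ℂ 𝔸
  exact exp_nsmul n x

lemma exp_hasSum (x : 𝔸) : HasSum (fun n : ℕ => ((n.factorial : ℂ))⁻¹ • x ^ n) (exp x) :=
  exp_series_hasSum_exp' (𝕂 := ℂ) x

lemma real_exp_hasSum (r : ℝ) : HasSum (fun n : ℕ => ((n.factorial : ℝ))⁻¹ * r ^ n) (Real.exp r) := by
  rw [Real.exp_eq_exp_ℝ]
  exact exp_series_hasSum_exp' (𝕂 := ℝ) r

lemma norm_exp_le' (x : 𝔸) : ‖exp x‖ ≤ Real.exp ‖x‖ := by
  rw [← (exp_hasSum x).tsum_eq]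
  refine tsum_of_norm_bounded (real_exp_hasSum ‖x‖) fun n => ?_
  rw [norm_smul, norm_inv, Complex.norm_natCast]
  gcongr
  exact norm_pow_le x n

lemma norm_exp_sub_one_le' (x : 𝔸) : ‖exp x - 1‖ ≤ Real.exp ‖x‖ - 1 := by
  have h1 := (hasSum_nat_add_iff' 1).2 (exp_hasSum x)
  have h2 := (hasSum_nat_add_iff' 1).2 (real_exp_hasSum ‖x‖)
  simp only [Finset.range_one, Finset.sum_singleton, Nat.factorial_zero, Nat.cast_one, inv_one,
    pow_zero, one_smul, mul_one] at h1 h2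
  rw [← h1.tsum_eq]
  refine tsum_of_norm_bounded h2 fun n => ?_
  rw [norm_smul, norm_inv, Complex.norm_natCast]
  gcongr
  exact norm_pow_le x _

/-- Euler formula for an involution. -/
lemma exp_involution (σ : 𝔸) (hσ : σ * σ = 1) (t : ℂ) :
    exp ((Complex.I * t) • σ) = Complex.cos t • (1 : 𝔸) + (Complex.I * Complex.sin t) • σ := by
  have h := exp_hasSum ((Complex.I * t) • σ)
  have hpow : ∀ k : ℕ, σ ^ (2 * k) = 1 := by
    intro k
    rw [pow_mul, pow_two, hσ, one_pow]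
  have hI : ∀ k : ℕ, Complex.I ^ (2 * k) = (-1) ^ k := by
    intro k
    rw [pow_mul, Complex.I_sq]
  have he : HasSum (fun k : ℕ => (((2 * k).factorial : ℂ))⁻¹ • ((Complex.I * t) • σ) ^ (2 * k))
      (Complex.cos t • (1 : 𝔸)) := by
    have := (Complex.hasSum_cos t).smul_const (1 : 𝔸)
    convert this using 2 with k
    rw [smul_pow, hpow, smul_smul, mul_pow, hI]
    congr 1
    field_simp
  have ho : HasSum
      (fun k : ℕ => (((2 * k + 1).factorial : ℂ))⁻¹ • ((Complex.I * t) • σ) ^ (2 * k + 1))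
      ((Complex.I * Complex.sin t) • σ) := by
    have := ((Complex.hasSum_sin t).mul_left Complex.I).smul_const σ
    convert this using 2 with k
    rw [smul_pow, pow_succ σ, hpow, one_mul, smul_smul, mul_pow, pow_succ Complex.I, hI]
    congr 1
    field_simp
  exact h.unique (he.even_add_odd ho)

/-- The weights. -/
noncomputable def ep (j : ℕ) : ℝ := Real.pi / 2 * (1 / 3) ^ (j + 1)

lemma ep_pos (j : ℕ) : 0 < ep j := by unfold ep; positivity

lemma ep_hasSum_tail (J : ℕ) : HasSum (fun j => ep (j + J)) (Real.pi / 4 * (1 / 3) ^ J) := by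
  have h := (hasSum_geometric_of_lt_one (r := (1 / 3 : ℝ)) (by norm_num) (by norm_num)).mul_left
    (Real.pi / 2 * (1 / 3) ^ (J + 1))
  have e : (fun j => ep (j + J)) = fun j => Real.pi / 2 * (1 / 3) ^ (J + 1) * (1 / 3) ^ j := by
    funext j
    unfold ep
    rw [show j + J + 1 = (J + 1) + j by ring, pow_add (1 / 3 : ℝ) (J + 1) j]
    ring
  rw [e]
  have e2 : Real.pi / 4 * (1 / 3) ^ J = Real.pi / 2 * (1 / 3) ^ (J + 1) * (1 - 1 / 3)⁻¹ := by
    rw [pow_succ]
    norm_num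
    ring
  rw [e2]
  exact h

variable (σ : ℕ → 𝔸) (hn : ∀ j, ‖σ j‖ ≤ 1) (h2 : ∀ j, σ j * σ j = 1)
  (hc : ∀ j k, Commute (σ j) (σ k))

/-- The tail `∑ ε_{j+J} σ_{j+J}`. -/
noncomputable def RR (J : ℕ) : 𝔸 := ∑' j, ((ep (j + J) : ℝ) : ℂ) • σ (j + J)

/-- The truncated sum. -/
noncomputable def SS (J : ℕ) : 𝔸 := ∑ j ∈ Finset.range J, ((ep j : ℝ) : ℂ) • σ j

include hn

lemma term_norm (j : ℕ) : ‖((ep j : ℝ) : ℂ) • σ j‖ ≤ ep j := by
  rw [norm_smul, Complex.norm_real, Real.norm_of_nonneg (ep_pos j).le]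
  exact mul_le_of_le_one_right (ep_pos j).le (hn j)

lemma summable_tail (J : ℕ) : Summable fun j => ((ep (j + J) : ℝ) : ℂ) • σ (j + J) :=
  (ep_hasSum_tail J).summable.of_norm_bounded fun j => term_norm σ hn (j + J)

lemma norm_RR (J : ℕ) : ‖RR σ J‖ ≤ Real.pi / 4 * (1 / 3) ^ J :=
  tsum_of_norm_bounded (ep_hasSum_tail J) fun j => term_norm σ hn (j + J)

lemma split (J : ℕ) : RR σ 0 = SS σ J + RR σ J := by
  unfold RR SS
  have := (summable_tail σ hn 0).sum_add_tsum_nat_add J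
  simp only [Nat.add_zero] at this ⊢
  exact this.symm

omit hn

/-- The finite products. -/
noncomputable def PP (t : ℝ) : ℕ → 𝔸
  | 0 => 1
  | (J + 1) => (Complex.cos (t * ep J) • (1 : 𝔸) + (Complex.I * Complex.sin (t * ep J)) • σ J) *
      PP t J

include hc

lemma commute_SS (c : ℂ) (k J : ℕ) : Commute (c • σ k) (SS σ J) := by
  unfold SS
  refine Commute.sum_right _ _ _ fun j _ => ?_
  exact ((hc k j).smul_left c).smul_right _

include h2

lemma exp_SS (t : ℝ) (J : ℕ) : exp ((Complex.I * t) • SS σ J) = PP σ t J := by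
  induction J with
  | zero => simp [SS, PP]
  | succ J ih =>
    have h1 : (Complex.I * t) • SS σ (J + 1) =
        (Complex.I * ((t * ep J : ℝ) : ℂ)) • σ J + (Complex.I * t) • SS σ J := by
      unfold SS
      rw [Finset.sum_range_succ, smul_add, smul_smul, add_comm]
      congr 2
      push_cast
      ring
    rw [h1, exp_add' ((commute_SS σ hc _ J J).smul_right _), ih, exp_involution _ (h2 J)]
    push_cast
    rfl

include hn

lemma norm_PP (t : ℝ) (J : ℕ) : ‖PP σ t J‖ ^ 2 ≤ 2 ^ J := by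
  induction J with
  | zero => simp [PP]
  | succ J ih =>
    have h1 : ‖Complex.cos (t * ep J) • (1 : 𝔸) + (Complex.I * Complex.sin (t * ep J)) • σ J‖ ≤
        |Real.cos (t * ep J)| + |Real.sin (t * ep J)| := by
      refine (norm_add_le _ _).trans ?_
      rw [norm_smul, norm_smul, norm_one, mul_one, norm_mul, Complex.norm_I, one_mul]
      have e1 : ‖Complex.cos (t * ep J)‖ = |Real.cos (t * ep J)| := by
        rw [← Complex.ofReal_mul, ← Complex.ofReal_cos, Complex.norm_real, Real.norm_eq_abs]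
      have e2 : ‖Complex.sin (t * ep J)‖ = |Real.sin (t * ep J)| := by
        rw [← Complex.ofReal_mul, ← Complex.ofReal_sin, Complex.norm_real, Real.norm_eq_abs]
      rw [e1, e2]
      gcongr
      exact mul_le_of_le_one_right (abs_nonneg _) (hn J)
    have h3 : (|Real.cos (t * ep J)| + |Real.sin (t * ep J)|) ^ 2 ≤ 2 := by
      have a1 := sq_abs (Real.cos (t * ep J))
      have a2 := sq_abs (Real.sin (t * ep J))
      have a3 := Real.sin_sq_add_cos_sq (t * ep J)
      nlinarith [sq_nonneg (|Real.cos (t * ep J)| - |Real.sin (t * ep J)|)]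
    have h4 := norm_mul_le (Complex.cos (t * ep J) • (1 : 𝔸) +
      (Complex.I * Complex.sin (t * ep J)) • σ J) (PP σ t J)
    calc ‖PP σ t (J + 1)‖ ^ 2 ≤ ((|Real.cos (t * ep J)| + |Real.sin (t * ep J)|) *
          ‖PP σ t J‖) ^ 2 := by
          refine pow_le_pow_left₀ (norm_nonneg _) ?_ 2
          exact h4.trans (mul_le_mul_of_nonneg_right h1 (norm_nonneg _))
      _ = (|Real.cos (t * ep J)| + |Real.sin (t * ep J)|) ^ 2 * ‖PP σ t J‖ ^ 2 := by ring
      _ ≤ 2 * 2 ^ J := by gcongr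
      _ = 2 ^ (J + 1) := by ring

lemma commute_SR (c d : ℂ) (J : ℕ) : Commute (c • SS σ J) (d • RR σ J) := by
  refine (Commute.smul_left ?_ c).smul_right d
  unfold SS
  refine Commute.sum_left _ _ _ fun j _ => ?_
  unfold RR
  refine Commute.tsum_right _ fun k => ?_
  exact ((hc _ _).smul_left _).smul_right _

/-- The powers of the unitary part. -/
lemma pow_eq (n J : ℕ) : exp (Complex.I • RR σ 0) ^ n =
    PP σ n J * exp ((Complex.I * n) • RR σ J) := by
  rw [← exp_nsmul', split σ hn J]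
  have h1 : n • Complex.I • (SS σ J + RR σ J) =
      (Complex.I * n) • SS σ J + (Complex.I * n) • RR σ J := by
    rw [← smul_add, ← Nat.cast_smul_eq_nsmul ℂ, smul_smul, mul_comm]
  rw [h1, exp_add' (commute_SR σ hn h2 hc _ _ J)]
  have h3 := exp_SS σ h2 hc (n : ℝ) J
  rw [← h3]
  push_cast
  rfl

lemma norm_pow_upper (n : ℕ) (hn1 : 1 ≤ n) :
    ‖exp (Complex.I • RR σ 0) ^ n‖ ≤ Real.exp 1 * Real.sqrt (2 * n) := by
  obtain ⟨J, hJ1, hJ2⟩ : ∃ J : ℕ, n ≤ 3 ^ J ∧ 2 ^ J ≤ 2 * n := by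
    refine ⟨Nat.clog 3 n, Nat.le_pow_clog (by norm_num) n, ?_⟩
    rcases Nat.eq_or_lt_of_le hn1 with h | h
    · subst h; simp
    · have h3 := Nat.pow_pred_clog_lt_self (b := 3) (by norm_num) h
      have h4 : 0 < Nat.clog 3 n := Nat.clog_pos (by norm_num) h
      obtain ⟨m, hm⟩ := Nat.exists_eq_succ_of_ne_zero h4.ne'
      rw [hm, Nat.pred_succ] at h3
      rw [hm, pow_succ]
      have h5 : 2 ^ m ≤ 3 ^ m := Nat.pow_le_pow_left (by norm_num) m
      omega
  rw [pow_eq σ hn h2 hc n J]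
  refine (norm_mul_le _ _).trans ?_
  rw [mul_comm]
  have hpi : Real.pi / 4 ≤ 1 := by linarith [Real.pi_le_four]
  have h3 : ‖exp ((Complex.I * n) • RR σ J)‖ ≤ Real.exp 1 := by
    refine (norm_exp_le' _).trans (Real.exp_le_exp.2 ?_)
    rw [norm_smul, norm_mul, Complex.norm_I, one_mul, Complex.norm_natCast]
    have h4 := norm_RR σ hn J
    have h5 : (n : ℝ) ≤ 3 ^ J := by exact_mod_cast hJ1
    calc (n : ℝ) * ‖RR σ J‖ ≤ 3 ^ J * (Real.pi / 4 * (1 / 3) ^ J) := by gcongr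
      _ = Real.pi / 4 * (3 ^ J * (1 / 3) ^ J) := by ring
      _ = Real.pi / 4 := by rw [← mul_pow]; norm_num
      _ ≤ 1 := hpi
  have h6 : ‖PP σ n J‖ ≤ Real.sqrt (2 * n) := by
    apply Real.le_sqrt_of_sq_le
    refine (norm_PP σ hn h2 hc n J).trans ?_
    exact_mod_cast hJ2
  gcongr

lemma isUnit_one_add : IsUnit (1 + exp (Complex.I • RR σ 0)) := by
  have h1 : ‖exp (Complex.I • RR σ 0) - 1‖ < 2 := by
    refine (norm_exp_sub_one_le' _).trans_lt ?_
    have h3 : ‖Complex.I • RR σ 0‖ ≤ Real.pi / 4 := by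
      rw [norm_smul, Complex.norm_I, one_mul]
      simpa using norm_RR σ hn 0
    have h4 : Real.pi / 4 ≤ 1 := by linarith [Real.pi_le_four]
    have h5 : Real.exp ‖Complex.I • RR σ 0‖ ≤ Real.exp 1 := Real.exp_le_exp.2 (h3.trans h4)
    have h6 := Real.exp_one_lt_d9
    linarith
  have h7 : 1 + exp (Complex.I • RR σ 0) =
      (2 : ℂ) • (1 - (-(1 / 2 : ℂ)) • (exp (Complex.I • RR σ 0) - 1)) := by
    rw [smul_sub, smul_smul, smul_sub]
    module
  rw [h7]
  have h8 : ‖(-(1 / 2 : ℂ)) • (exp (Complex.I • RR σ 0) - 1)‖ < 1 := by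
    rw [norm_smul, norm_neg, norm_div, norm_one, Complex.norm_ofNat]
    linarith
  have h9 := isUnit_one_sub_of_norm_lt_one h8
  rw [Algebra.smul_def]
  exact ((IsUnit.mk0 (2 : ℂ) (by norm_num)).map (algebraMap ℂ 𝔸)).mul h9

end algebra

end Q83.ConvPow
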