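import Pool.Agent.Q83.ConvPow

set_option autoImplicit false
set_option linter.unusedSectionVars false
open NormedSpace Filter Topology
open scoped ENNReal

namespace Q83.ConvPow

section shift

variable {G : Type} [AddCommGroup G]

/-- The space of `p`-summable complex functions on `G`. -/
noncomputable abbrev El (G : Type) (p : ℝ≥0∞) := lp (fun _ : G => ℂ) p

variable {p : ℝ≥0∞} [hp1 : Fact (1 ≤ p)]

instance instNontrivialEl : Nontrivial (El G p) := by
  classical
  refine ⟨⟨lp.single p 0 1, 0, fun h => ?_⟩⟩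
  have h1 := congrArg (fun f : El G p => f 0) h
  simp only [lp.single_apply_self] at h1
  exact one_ne_zero h1

lemma toReal_pos (hp : p ≠ ⊤) : 0 < p.toReal :=
  ENNReal.toReal_pos (ne_of_gt (lt_of_lt_of_le one_pos hp1.out)) hp

lemma mem_shift (hp : p ≠ ⊤) (g : G) (f : El G p) : Memℓp (fun x => f (x - g)) p := by
  have h := (lp.memℓp f).summable (toReal_pos hp)
  apply memℓp_gen
  exact (Equiv.subRight g).summable_iff.2 h

/-- Translation by `g` as a continuous linear map. -/
noncomputable def sh (hp : p ≠ ⊤) (g : G) : El G p →L[ℂ] El G p :=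
  LinearMap.mkContinuous
    { toFun := fun f => ⟨fun x => f (x - g), mem_shift hp g f⟩
      map_add' := fun f f' => by ext x; rfl
      map_smul' := fun c f => by ext x; rfl } 1 (by
      intro f
      rw [one_mul]
      apply le_of_eq
      have hr := toReal_pos hp
      rw [lp.norm_eq_tsum_rpow hr, lp.norm_eq_tsum_rpow hr]
      congr 1
      exact (Equiv.subRight g).tsum_eq (fun x => ‖f x‖ ^ p.toReal))

lemma sh_apply (hp : p ≠ ⊤) (g : G) (f : El G p) (x : G) : sh hp g f x = f (x - g) := rfl

lemma norm_sh_le (hp : p ≠ ⊤) (g : G) : ‖sh (p := p) hp g‖ ≤ 1 :=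
  LinearMap.mkContinuous_norm_le _ zero_le_one _

lemma sh_mul (hp : p ≠ ⊤) (g h : G) : sh (p := p) hp g * sh hp h = sh hp (g + h) := by
  ext f x
  rw [mul_apply_eq_comp, sh_apply, sh_apply, sh_apply, sub_sub]

lemma sh_zero (hp : p ≠ ⊤) : sh (G := G) (p := p) hp 0 = 1 := by
  ext f x
  rw [sh_apply, sub_zero]
  rfl

lemma sh_commute (hp : p ≠ ⊤) (g h : G) : Commute (sh (p := p) hp g) (sh hp h) := by
  rw [Commute, SemiconjBy, sh_mul, sh_mul, add_comm]

lemma one_ne_top' : (1 : ℝ≥0∞) ≠ ⊤ := ENNReal.one_ne_top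

/-- The pairing `(a, f) ↦ ∑ a(y) f(x - y)`. -/
lemma pair_summable (a : El G 1) (f : El G p) (x : G) :
    Summable fun y => ‖a y * f (x - y)‖ := by
  have h := (lp.memℓp a).summable (p := 1) (by norm_num)
  simp only [ENNReal.toReal_one, Real.rpow_one] at h
  refine (h.mul_right ‖f‖).of_nonneg_of_le (fun y => norm_nonneg _) fun y => ?_
  rw [norm_mul]
  gcongr
  exact lp.norm_apply_le_norm (ne_of_gt (lt_of_lt_of_le one_pos hp1.out)) f _

lemma norm_one_eq (a : El G 1) : ‖a‖ = ∑' y, ‖a y‖ := by
  rw [lp.norm_eq_tsum_rpow (by norm_num)]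
  simp

/-- The pairing as a continuous bilinear map. -/
noncomputable def pair (x : G) : El G 1 →L[ℂ] El G p →L[ℂ] ℂ :=
  LinearMap.mkContinuous₂
    (LinearMap.mk₂ ℂ (fun (a : El G 1) (f : El G p) => ∑' y, a y * f (x - y))
      (by
        intro a b f
        rw [← Summable.tsum_add (pair_summable a f x).of_norm (pair_summable b f x).of_norm]
        refine tsum_congr fun y => ?_
        rw [lp.coeFn_add, Pi.add_apply, add_mul])
      (by
        intro c a f
        rw [smul_eq_mul, ← tsum_mul_left]
        refine tsum_congr fun y => ?_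
        rw [lp.coeFn_smul, Pi.smul_apply, smul_eq_mul, mul_assoc])
      (by
        intro a f f'
        rw [← Summable.tsum_add (pair_summable a f x).of_norm (pair_summable a f' x).of_norm]
        refine tsum_congr fun y => ?_
        rw [lp.coeFn_add, Pi.add_apply, mul_add])
      (by
        intro c a f
        rw [smul_eq_mul, ← tsum_mul_left]
        refine tsum_congr fun y => ?_
        rw [lp.coeFn_smul, Pi.smul_apply, smul_eq_mul]
        ring)) 1 (by
      intro a f
      rw [one_mul, LinearMap.mk₂_apply]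
      refine (norm_tsum_le_tsum_norm (pair_summable a f x)).trans ?_
      rw [norm_one_eq, ← tsum_mul_right]
      have h := (lp.memℓp a).summable (p := 1) (by norm_num)
      simp only [ENNReal.toReal_one, Real.rpow_one] at h
      refine Summable.tsum_le_tsum (fun y => ?_) (pair_summable a f x) (h.mul_right _)
      rw [norm_mul]
      gcongr
      exact lp.norm_apply_le_norm (ne_of_gt (lt_of_lt_of_le one_pos hp1.out)) f _)

lemma pair_apply (x : G) (a : El G 1) (f : El G p) : pair x a f = ∑' y, a y * f (x - y) := rfl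

lemma pair_shift (hp : p ≠ ⊤) (x g : G) (a : El G 1) (f : El G p) :
    pair x (sh one_ne_top' g a) f = pair x a (sh hp g f) := by
  rw [pair_apply, pair_apply, ← (Equiv.addRight g).tsum_eq]
  refine tsum_congr fun y => ?_
  rw [sh_apply, sh_apply, Equiv.coe_addRight, add_sub_cancel_right, sub_sub]

/-- Pairs of operators on the two spaces given by the same convolution. -/
def Tw (S : El G 1 →L[ℂ] El G 1) (S' : El G p →L[ℂ] El G p) : Prop :=
  ∀ (x : G) (a : El G 1) (f : El G p), pair x (S a) f = pair x a (S' f)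

lemma Tw.smul {S : El G 1 →L[ℂ] El G 1} {S' : El G p →L[ℂ] El G p} (h : Tw S S') (c : ℂ) :
    Tw (c • S) (c • S') := by
  intro x a f
  rw [smul_apply, smul_apply, map_smul, map_smul,
    smul_apply, h x a f]

lemma Tw.pow {S : El G 1 →L[ℂ] El G 1} {S' : El G p →L[ℂ] El G p} (h : Tw S S') (n : ℕ) :
    Tw (S ^ n) (S' ^ n) := by
  induction n with
  | zero => intro x a f; rfl
  | succ n ih =>
    intro x a f
    rw [pow_succ, pow_succ', mul_apply_eq_comp, mul_apply_eq_comp,
      ih x (S a) f, h x a _]

lemma Tw.hasSum {ι : Type} {S : ι → El G 1 →L[ℂ] El G 1} {S' : ι → El G p →L[ℂ] El G p}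
    {A : El G 1 →L[ℂ] El G 1} {A' : El G p →L[ℂ] El G p} (h : ∀ i, Tw (S i) (S' i))
    (hS : HasSum S A) (hS' : HasSum S' A') : Tw A A' := by
  intro x a f
  have h1 : HasSum (fun i => pair x (S i a) f) (pair x (A a) f) := by
    have := ((ContinuousLinearMap.apply ℂ ℂ f).comp ((pair x).comp
      (ContinuousLinearMap.apply ℂ (El G 1) a))).hasSum hS
    exact this
  have h2 : HasSum (fun i => pair x a (S' i f)) (pair x a (A' f)) := by
    have := ((pair x a).comp (ContinuousLinearMap.apply ℂ (El G p) f)).hasSum hS'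
    exact this
  have h3 : (fun i => pair x (S i a) f) = fun i => pair x a (S' i f) :=
    funext fun i => h i x a f
  rw [h3] at h1
  exact h1.unique h2

lemma Tw.exp {S : El G 1 →L[ℂ] El G 1} {S' : El G p →L[ℂ] El G p} (h : Tw S S') :
    Tw (exp S) (exp S') :=
  Tw.hasSum (fun n : ℕ => (h.pow n).smul _) (exp_hasSum S) (exp_hasSum S')

lemma Tw.neg {S : El G 1 →L[ℂ] El G 1} {S' : El G p →L[ℂ] El G p} (h : Tw S S') :
    Tw (-S) (-S') := by
  intro x a f
  rw [neg_apply, neg_apply, map_neg, map_neg,
    neg_apply, h x a f]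

lemma pair_single [DecidableEq G] (x : G) (f : El G p) :
    pair x (lp.single 1 0 1) f = f x := by
  rw [pair_apply, tsum_eq_single 0]
  · rw [lp.single_apply_self, sub_zero, one_mul]
  · intro y hy
    rw [lp.single_apply_ne _ _ _ hy, zero_mul]

/-- The operator on `El G p` is convolution by the image of the unit mass. -/
lemma Tw.conv [DecidableEq G] {S : El G 1 →L[ℂ] El G 1} {S' : El G p →L[ℂ] El G p}
    (h : Tw S S') (f : El G p) (x : G) :
    S' f x = ∑' y, (S (lp.single 1 0 1)) y * f (x - y) := by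
  rw [← pair_single x (S' f), ← h x, pair_apply]

end shift

end Q83.ConvPow
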