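import Pool.Agent.Q83.ConvPow2

set_option autoImplicit false
set_option linter.unusedSectionVars false
open NormedSpace Filter Topology
open scoped ENNReal

namespace Q83.ConvPow

/-- The direct sum of countably many copies of the group of order two. -/
abbrev BB : Type := ℕ →₀ ZMod 2

noncomputable def eb (j : ℕ) : BB := Finsupp.single j 1

lemma eb_add (j : ℕ) : eb j + eb j = 0 := by
  unfold eb
  rw [← Finsupp.single_add]
  have : (1 : ZMod 2) + 1 = 0 := by decide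
  rw [this, Finsupp.single_zero]

variable {p : ℝ≥0∞} [hp1 : Fact (1 ≤ p)] (hp : p ≠ ⊤)

/-- The coordinate flips. -/
noncomputable def sg (j : ℕ) : El BB p →L[ℂ] El BB p := sh hp (eb j)

lemma sg_norm (j : ℕ) : ‖sg (p := p) hp j‖ ≤ 1 := norm_sh_le hp _

lemma sg_sq (j : ℕ) : sg (p := p) hp j * sg hp j = 1 := by
  unfold sg
  rw [sh_mul, eb_add, sh_zero]

lemma sg_comm (j k : ℕ) : Commute (sg (p := p) hp j) (sg hp k) := sh_commute hp _ _

/-- The unitary part. -/
noncomputable def UU : El BB p →L[ℂ] El BB p := exp (Complex.I • RR (sg hp) 0)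

lemma tw_UU : Tw (UU (p := 1) one_ne_top') (UU (p := p) hp) := by
  unfold UU
  refine Tw.exp (Tw.smul ?_ _)
  unfold RR
  refine Tw.hasSum (fun j => Tw.smul ?_ _)
    (summable_tail (sg (p := 1) one_ne_top') (sg_norm one_ne_top') 0).hasSum
    (summable_tail (sg (p := p) hp) (sg_norm hp) 0).hasSum
  intro x a f
  exact pair_shift hp x _ a f

/-- The norm of a combination of a function and its flip. -/
lemma norm_step (J : ℕ) (f : El BB p) (hf : ∀ x, f x ≠ 0 → x J = 0) (α β : ℂ) :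
    ‖(α • (1 : El BB p →L[ℂ] El BB p) + β • sg hp J) f‖ ^ p.toReal =
      (‖α‖ ^ p.toReal + ‖β‖ ^ p.toReal) * ‖f‖ ^ p.toReal := by
  have hr := toReal_pos (p := p) hp
  rw [lp.norm_rpow_eq_tsum hr, lp.norm_rpow_eq_tsum hr]
  have hs := (lp.memℓp f).summable hr
  have hs2 : Summable fun x : BB => ‖f (x - eb J)‖ ^ p.toReal :=
    (Equiv.subRight (eb J)).summable_iff.2 hs
  have ht2 : ∑' x : BB, ‖f (x - eb J)‖ ^ p.toReal = ∑' x, ‖f x‖ ^ p.toReal :=
    (Equiv.subRight (eb J)).tsum_eq (fun x => ‖f x‖ ^ p.toReal)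
  have hpt : ∀ x : BB, ‖((α • (1 : El BB p →L[ℂ] El BB p) + β • sg hp J) f) x‖ ^ p.toReal =
      ‖α‖ ^ p.toReal * ‖f x‖ ^ p.toReal + ‖β‖ ^ p.toReal * ‖f (x - eb J)‖ ^ p.toReal := by
    intro x
    have h1 : ((α • (1 : El BB p →L[ℂ] El BB p) + β • sg hp J) f) x =
        α * f x + β * f (x - eb J) := rfl
    rw [h1]
    by_cases h : f x = 0
    · rw [h, mul_zero, zero_add, norm_zero, Real.zero_rpow hr.ne', mul_zero, zero_add, norm_mul,
        Real.mul_rpow (norm_nonneg _) (norm_nonneg _)]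
    · have h2 : f (x - eb J) = 0 := by
        by_contra h3
        have e1 := hf x h
        have e2 := hf _ h3
        rw [Finsupp.sub_apply, e1, eb, Finsupp.single_eq_same] at e2
        exact absurd e2 (by decide)
      rw [h2, mul_zero, add_zero, norm_zero, Real.zero_rpow hr.ne', mul_zero, add_zero, norm_mul,
        Real.mul_rpow (norm_nonneg _) (norm_nonneg _)]
  simp only [hpt]
  rw [Summable.tsum_add (hs.mul_left _) (hs2.mul_left _), tsum_mul_left, tsum_mul_left, ht2]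
  ring

/-- The weight of one factor. -/
noncomputable def wt (r t : ℝ) (j : ℕ) : ℝ :=
  |Real.cos (t * ep j)| ^ r + |Real.sin (t * ep j)| ^ r

lemma pp_delta (t : ℝ) (J : ℕ) :
    (∀ x, (PP (sg hp) t J (lp.single p 0 1)) x ≠ 0 → ∀ k, J ≤ k → x k = 0) ∧
    ‖PP (sg hp) t J (lp.single p 0 1)‖ ^ p.toReal = ∏ j ∈ Finset.range J, wt p.toReal t j := by
  classical
  induction J with
  | zero =>
    constructor
    · intro x hx k _
      have h1 : x = 0 := by
        by_contra h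
        apply hx
        exact lp.single_apply_ne _ _ _ h
      rw [h1]; rfl
    · have h1 : PP (sg hp) t 0 (lp.single p 0 1) = lp.single p 0 1 := rfl
      rw [h1, lp.norm_single (lt_of_lt_of_le one_pos hp1.out)]
      simp
  | succ J ih =>
    obtain ⟨ih1, ih2⟩ := ih
    have h1 : PP (sg hp) t (J + 1) (lp.single p 0 1) =
        (Complex.cos (t * ep J) • (1 : El BB p →L[ℂ] El BB p) +
          (Complex.I * Complex.sin (t * ep J)) • sg hp J) (PP (sg hp) t J (lp.single p 0 1)) := rfl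
    constructor
    · intro x hx k hk
      rw [h1] at hx
      have h2 : ((Complex.cos (t * ep J) • (1 : El BB p →L[ℂ] El BB p) +
          (Complex.I * Complex.sin (t * ep J)) • sg hp J)
            (PP (sg hp) t J (lp.single p 0 1))) x =
          Complex.cos (t * ep J) * (PP (sg hp) t J (lp.single p 0 1)) x +
          (Complex.I * Complex.sin (t * ep J)) * (PP (sg hp) t J (lp.single p 0 1)) (x - eb J) :=
        rfl
      rw [h2] at hx
      by_cases h3 : (PP (sg hp) t J (lp.single p 0 1)) x = 0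
      · have h4 : (PP (sg hp) t J (lp.single p 0 1)) (x - eb J) ≠ 0 := by
          intro h5
          apply hx
          rw [h3, h5, mul_zero, mul_zero, add_zero]
        have h6 := ih1 _ h4 k (by omega)
        rw [Finsupp.sub_apply, eb, Finsupp.single_eq_of_ne (by omega), sub_zero] at h6
        exact h6
      · exact ih1 _ h3 k (by omega)
    · rw [h1, norm_step hp J _ (fun x hx => ih1 x hx J le_rfl), ih2, Finset.prod_range_succ,
        mul_comm]
      congr 1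
      unfold wt
      rw [norm_mul, Complex.norm_I, one_mul]
      have e1 : ‖Complex.cos (t * ep J)‖ = |Real.cos (t * ep J)| := by
        rw [← Complex.ofReal_mul, ← Complex.ofReal_cos, Complex.norm_real, Real.norm_eq_abs]
      have e2 : ‖Complex.sin (t * ep J)‖ = |Real.sin (t * ep J)| := by
        rw [← Complex.ofReal_mul, ← Complex.ofReal_sin, Complex.norm_real, Real.norm_eq_abs]
      rw [e1, e2]

/-- The special times. -/
def nn (J : ℕ) : ℕ := ∑ j ∈ Finset.range J, 3 ^ j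

lemma two_nn (J : ℕ) : 2 * nn J + 1 = 3 ^ J := by
  unfold nn
  induction J with
  | zero => simp
  | succ J ih => rw [Finset.sum_range_succ, pow_succ]; omega

lemma odd_three_pow (m : ℕ) : ∃ k : ℕ, 3 ^ m = 2 * k + 1 := (Odd.pow (by decide : Odd 3))

lemma sin_two (J j : ℕ) (hj : j < J) : 3 / 4 ≤ Real.sin (2 * (nn J * ep j)) ^ 2 := by
  obtain ⟨m, rfl⟩ := Nat.exists_eq_add_of_lt hj
  obtain ⟨k, hk⟩ := odd_three_pow m
  have h1 : 2 * (nn (j + m + 1) : ℝ) = 3 ^ (j + m + 1) - 1 := by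
    have := two_nn (j + m + 1)
    have h2 : (2 * (nn (j + m + 1) : ℝ) + 1) = 3 ^ (j + m + 1) := by exact_mod_cast this
    linarith
  have h3 : 2 * ((nn (j + m + 1) : ℝ) * ep j) =
      (Real.pi / 2 - Real.pi / 2 * (1 / 3) ^ (j + 1)) + k * Real.pi := by
    unfold ep
    have e : (3 : ℝ) ^ (j + m + 1) * (1 / 3) ^ (j + 1) = 2 * k + 1 := by
      have e1 : (3 : ℝ) ^ (j + m + 1) = 3 ^ m * 3 ^ (j + 1) := by
        rw [← pow_add]; congr 1; ring
      rw [e1, mul_assoc, ← mul_pow]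
      have e2 : (3 : ℝ) ^ m = 2 * k + 1 := by exact_mod_cast hk
      rw [e2]
      norm_num
    calc 2 * ((nn (j + m + 1) : ℝ) * (Real.pi / 2 * (1 / 3) ^ (j + 1)))
        = (2 * (nn (j + m + 1) : ℝ)) * (Real.pi / 2 * (1 / 3) ^ (j + 1)) := by ring
      _ = Real.pi / 2 * (3 ^ (j + m + 1) * (1 / 3) ^ (j + 1)) -
            Real.pi / 2 * (1 / 3) ^ (j + 1) := by rw [h1]; ring
      _ = _ := by rw [e]; ring
  rw [h3, Real.sin_add_nat_mul_pi, mul_pow, ← pow_mul, mul_comm k 2, pow_mul, neg_one_sq, one_pow,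
    one_mul, Real.sin_pi_div_two_sub]
  have h4 : Real.pi / 2 * (1 / 3) ^ (j + 1) ≤ Real.pi / 6 := by
    rw [pow_succ]
    have : ((1 : ℝ) / 3) ^ j ≤ 1 := pow_le_one₀ (by norm_num) (by norm_num)
    have hpi := Real.pi_pos
    nlinarith
  have h5 : 0 ≤ Real.pi / 2 * (1 / 3) ^ (j + 1) := by positivity
  have h6 : Real.cos (Real.pi / 6) ≤ Real.cos (Real.pi / 2 * (1 / 3) ^ (j + 1)) :=
    Real.cos_le_cos_of_nonneg_of_le_pi h5 (by linarith [Real.pi_pos]) h4
  rw [Real.cos_pi_div_six] at h6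
  have h7 : (Real.sqrt 3 / 2) ^ 2 = 3 / 4 := by
    rw [div_pow, Real.sq_sqrt (by norm_num)]; norm_num
  rw [← h7]
  exact pow_le_pow_left₀ (by positivity) h6 2

/-- Both squares lie between one quarter and three quarters. -/
lemma squares (J j : ℕ) (hj : j < J) (s : ℝ) (hs : s = nn J ∨ s = -nn J) :
    Real.cos (s * ep j) ^ 2 ≤ 3 / 4 ∧ Real.sin (s * ep j) ^ 2 ≤ 3 / 4 ∧
      0 < Real.cos (s * ep j) ^ 2 ∧ 0 < Real.sin (s * ep j) ^ 2 := by
  have h1 : 3 / 4 ≤ Real.sin (2 * (s * ep j)) ^ 2 := by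
    rcases hs with rfl | rfl
    · exact sin_two J j hj
    · have : 2 * (-(nn J : ℝ) * ep j) = -(2 * (nn J * ep j)) := by ring
      rw [this, Real.sin_neg, neg_sq]
      exact sin_two J j hj
  rw [Real.sin_two_mul] at h1
  have h2 := Real.sin_sq_add_cos_sq (s * ep j)
  set c := Real.cos (s * ep j) with hc
  set d := Real.sin (s * ep j) with hd
  have h3 : 3 / 16 ≤ d ^ 2 * c ^ 2 := by nlinarith
  have hc0 := sq_nonneg c
  have hd0 := sq_nonneg d
  refine ⟨by nlinarith, by nlinarith, by nlinarith, by nlinarith⟩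

lemma abs_rpow (y r : ℝ) (hy : 0 < y ^ 2) : |y| ^ r = y ^ 2 * (y ^ 2) ^ (r / 2 - 1) := by
  have h1 : |y| ^ r = (y ^ 2) ^ (r / 2) := by
    rw [← sq_abs, ← Real.rpow_natCast, ← Real.rpow_mul (abs_nonneg y)]
    congr 1
    push_cast
    ring
  rw [h1, Real.rpow_sub_one hy.ne', mul_comm, div_mul_cancel₀ _ hy.ne']

lemma wt_lower (r : ℝ) (hr : r < 2) (J j : ℕ) (hj : j < J) (s : ℝ) (hs : s = nn J ∨ s = -nn J) :
    (3 / 4 : ℝ) ^ (r / 2 - 1) ≤ wt r s j := by
  obtain ⟨h1, h2, h3, h4⟩ := squares J j hj s hs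
  unfold wt
  rw [abs_rpow _ r h3, abs_rpow _ r h4]
  have e := Real.sin_sq_add_cos_sq (s * ep j)
  have k1 : (3 / 4 : ℝ) ^ (r / 2 - 1) ≤ (Real.cos (s * ep j) ^ 2) ^ (r / 2 - 1) :=
    Real.rpow_le_rpow_of_nonpos h3 h1 (by linarith)
  have k2 : (3 / 4 : ℝ) ^ (r / 2 - 1) ≤ (Real.sin (s * ep j) ^ 2) ^ (r / 2 - 1) :=
    Real.rpow_le_rpow_of_nonpos h4 h2 (by linarith)
  have k3 : (3 / 4 : ℝ) ^ (r / 2 - 1) = Real.cos (s * ep j) ^ 2 * (3 / 4 : ℝ) ^ (r / 2 - 1) +
      Real.sin (s * ep j) ^ 2 * (3 / 4 : ℝ) ^ (r / 2 - 1) := by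
    rw [← add_mul, add_comm (Real.cos (s * ep j) ^ 2), e, one_mul]
  rw [k3]
  exact add_le_add (mul_le_mul_of_nonneg_left k1 h3.le) (mul_le_mul_of_nonneg_left k2 h4.le)

lemma wt_upper (r : ℝ) (hr : 2 < r) (J j : ℕ) (hj : j < J) (s : ℝ) (hs : s = nn J ∨ s = -nn J) :
    wt r s j ≤ (3 / 4 : ℝ) ^ (r / 2 - 1) := by
  obtain ⟨h1, h2, h3, h4⟩ := squares J j hj s hs
  unfold wt
  rw [abs_rpow _ r h3, abs_rpow _ r h4]
  have e := Real.sin_sq_add_cos_sq (s * ep j)
  have k1 : (Real.cos (s * ep j) ^ 2) ^ (r / 2 - 1) ≤ (3 / 4 : ℝ) ^ (r / 2 - 1) :=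
    Real.rpow_le_rpow h3.le h1 (by linarith)
  have k2 : (Real.sin (s * ep j) ^ 2) ^ (r / 2 - 1) ≤ (3 / 4 : ℝ) ^ (r / 2 - 1) :=
    Real.rpow_le_rpow h4.le h2 (by linarith)
  have k3 : (3 / 4 : ℝ) ^ (r / 2 - 1) = Real.cos (s * ep j) ^ 2 * (3 / 4 : ℝ) ^ (r / 2 - 1) +
      Real.sin (s * ep j) ^ 2 * (3 / 4 : ℝ) ^ (r / 2 - 1) := by
    rw [← add_mul, add_comm (Real.cos (s * ep j) ^ 2), e, one_mul]
  rw [k3]
  exact add_le_add (mul_le_mul_of_nonneg_left k1 h3.le) (mul_le_mul_of_nonneg_left k2 h4.le)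

/-- The truncated product is controlled by the power. -/
lemma norm_PP_le (J : ℕ) :
    ‖PP (sg (p := p) hp) (nn J) J‖ ≤ ‖UU (p := p) hp ^ (nn J)‖ * Real.exp 1 := by
  have h1 := pow_eq (sg (p := p) hp) (sg_norm hp) (sg_sq hp) (sg_comm hp) (nn J) J
  have h2 : PP (sg (p := p) hp) (nn J) J =
      UU (p := p) hp ^ (nn J) * exp (-((Complex.I * nn J) • RR (sg (p := p) hp) J)) := by
    unfold UU
    rw [h1, mul_assoc, ← exp_add' ((Commute.refl _).neg_right), add_neg_cancel, exp_zero, mul_one]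
  rw [h2]
  refine (norm_mul_le _ _).trans ?_
  gcongr
  refine (norm_exp_le' _).trans (Real.exp_le_exp.2 ?_)
  rw [norm_neg, norm_smul, norm_mul, Complex.norm_I, one_mul, Complex.norm_natCast]
  have h4 := norm_RR (sg (p := p) hp) (sg_norm hp) J
  have h5 : (nn J : ℝ) ≤ 3 ^ J := by
    have := two_nn J
    have h6 : nn J ≤ 3 ^ J := by omega
    exact_mod_cast h6
  calc (nn J : ℝ) * ‖RR (sg (p := p) hp) J‖ ≤ 3 ^ J * (Real.pi / 4 * (1 / 3) ^ J) := by gcongr
    _ = Real.pi / 4 * (3 ^ J * (1 / 3) ^ J) := by ring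
    _ = Real.pi / 4 := by rw [← mul_pow]; norm_num
    _ ≤ 1 := by linarith [Real.pi_le_four]

/-- Growth of the truncated products. -/
lemma exists_growth (hp2 : p ≠ 2) : ∃ κ : ℝ, 1 < κ ∧ ∀ J : ℕ,
    κ ^ J ≤ ‖PP (sg (p := p) hp) (nn J) J‖ ^ p.toReal := by
  classical
  have hr := toReal_pos (p := p) hp
  have hr2 : p.toReal ≠ 2 := by
    intro h
    apply hp2
    rw [← ENNReal.ofReal_toReal hp, h]
    norm_num
  have hδ : ‖(lp.single p (0 : BB) (1 : ℂ) : El BB p)‖ = 1 := by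
    rw [lp.norm_single (lt_of_lt_of_le one_pos hp1.out), norm_one]
  rcases lt_or_gt_of_ne hr2 with h | h
  · refine ⟨(3 / 4 : ℝ) ^ (p.toReal / 2 - 1), ?_, fun J => ?_⟩
    · exact Real.one_lt_rpow_of_pos_of_lt_one_of_neg (by norm_num) (by norm_num) (by linarith)
    · have h1 := (pp_delta hp (nn J) J).2
      have h2 : ‖PP (sg hp) (nn J) J (lp.single p 0 1)‖ ^ p.toReal ≤
          ‖PP (sg (p := p) hp) (nn J) J‖ ^ p.toReal := by
        refine Real.rpow_le_rpow (norm_nonneg _) ?_ hr.le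
        have := (PP (sg (p := p) hp) (nn J) J).le_opNorm (lp.single p 0 1)
        rwa [hδ, mul_one] at this
      refine le_trans ?_ h2
      rw [h1]
      calc ((3 / 4 : ℝ) ^ (p.toReal / 2 - 1)) ^ J
          = ∏ _j ∈ Finset.range J, (3 / 4 : ℝ) ^ (p.toReal / 2 - 1) := by simp
        _ ≤ _ := Finset.prod_le_prod (fun _ _ => by positivity) fun j hj =>
            wt_lower _ h J j (Finset.mem_range.1 hj) _ (Or.inl rfl)
  · refine ⟨(4 / 3 : ℝ) ^ (p.toReal / 2 - 1), ?_, fun J => ?_⟩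
    · exact Real.one_lt_rpow (by norm_num) (by linarith)
    · have h1 := (pp_delta hp (-nn J) J).2
      have h3 : PP (sg (p := p) hp) (nn J) J (PP (sg hp) (-nn J) J (lp.single p 0 1)) =
          lp.single p 0 1 := by
        have e1 := exp_SS (sg (p := p) hp) (sg_sq hp) (sg_comm hp) (nn J) J
        have e2 := exp_SS (sg (p := p) hp) (sg_sq hp) (sg_comm hp) (-nn J) J
        rw [← mul_apply_eq_comp, ← e1, ← e2, ← exp_add']
        · rw [← add_smul]
          push_cast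
          rw [mul_neg, add_neg_cancel, zero_smul, exp_zero]
          rfl
        · exact ((Commute.refl _).smul_left _).smul_right _
      have h4 : (1 : ℝ) ≤ ‖PP (sg (p := p) hp) (nn J) J‖ *
          ‖PP (sg hp) (-nn J) J (lp.single p 0 1)‖ := by
        rw [← hδ, ← h3]
        conv_rhs => rw [h3]
        exact (PP (sg (p := p) hp) (nn J) J).le_opNorm _
      have h5 : (1 : ℝ) ≤ ‖PP (sg (p := p) hp) (nn J) J‖ ^ p.toReal *
          ‖PP (sg hp) (-nn J) J (lp.single p 0 1)‖ ^ p.toReal := by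
        rw [← Real.mul_rpow (norm_nonneg _) (norm_nonneg _)]
        exact Real.one_le_rpow h4 hr.le
      have h6 : ∏ j ∈ Finset.range J, wt p.toReal (-nn J) j ≤
          ((3 / 4 : ℝ) ^ (p.toReal / 2 - 1)) ^ J := by
        calc _ ≤ ∏ _j ∈ Finset.range J, (3 / 4 : ℝ) ^ (p.toReal / 2 - 1) :=
              Finset.prod_le_prod (fun j _ => by unfold wt; positivity) fun j hj =>
                wt_upper _ h J j (Finset.mem_range.1 hj) _ (Or.inr rfl)
          _ = _ := by simp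
      rw [h1] at h5
      have h7 : (1 : ℝ) ≤ ‖PP (sg (p := p) hp) (nn J) J‖ ^ p.toReal *
          ((3 / 4 : ℝ) ^ (p.toReal / 2 - 1)) ^ J :=
        h5.trans (mul_le_mul_of_nonneg_left h6 (by positivity))
      have h8 : (4 / 3 : ℝ) ^ (p.toReal / 2 - 1) * (3 / 4 : ℝ) ^ (p.toReal / 2 - 1) = 1 := by
        rw [← Real.mul_rpow (by norm_num) (by norm_num)]
        norm_num
      calc ((4 / 3 : ℝ) ^ (p.toReal / 2 - 1)) ^ J
          = ((4 / 3 : ℝ) ^ (p.toReal / 2 - 1)) ^ J * 1 := by ring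
        _ ≤ ((4 / 3 : ℝ) ^ (p.toReal / 2 - 1)) ^ J *
            (‖PP (sg (p := p) hp) (nn J) J‖ ^ p.toReal *
              ((3 / 4 : ℝ) ^ (p.toReal / 2 - 1)) ^ J) :=
            mul_le_mul_of_nonneg_left h7 (by positivity)
        _ = ‖PP (sg (p := p) hp) (nn J) J‖ ^ p.toReal *
            ((4 / 3 : ℝ) ^ (p.toReal / 2 - 1) * (3 / 4 : ℝ) ^ (p.toReal / 2 - 1)) ^ J := by
            rw [mul_pow]; ring
        _ = _ := by rw [h8, one_pow, mul_one]

lemma UU_unbounded (hp2 : p ≠ 2) : ∀ C : ℝ, ∃ n : ℕ, C < ‖UU (p := p) hp ^ n‖ := by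
  intro C
  by_contra hcon
  push Not at hcon
  obtain ⟨κ, hκ, hgr⟩ := exists_growth (p := p) hp hp2
  have hr := toReal_pos (p := p) hp
  have hC0 : 0 ≤ C := (norm_nonneg _).trans (hcon 0)
  obtain ⟨J, hJ⟩ := pow_unbounded_of_one_lt ((C * Real.exp 1) ^ p.toReal) hκ
  have h1 := hgr J
  have h2 : ‖PP (sg (p := p) hp) (nn J) J‖ ≤ C * Real.exp 1 :=
    (norm_PP_le hp J).trans (mul_le_mul_of_nonneg_right (hcon _) (Real.exp_pos _).le)
  have h3 := Real.rpow_le_rpow (norm_nonneg _) h2 hr.le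
  linarith

end Q83.ConvPow
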