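import Pool.Agent.Results.MP_6c6e33_an.GaborOrbit

set_option autoImplicit false
open MeasureTheory

namespace Q83.GaborRep

open Pool.Agent.Results.MP_6c6e33_an.GaborOrbit

variable {H : Type*} [NormedAddCommGroup H] [InnerProductSpace ℂ H]

/-- The sequence `F` has a bounded representation: there is a bounded linear operator `T` from the
span of the `F k` to the Hilbert space with `T (F k) = F (k + 1)` for all indices `k`. -/
def BoundedRep {I : Type} [Add I] [One I] (F : I → H) : Prop :=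
  ∃ T : Submodule.span ℂ (Set.range F) →L[ℂ] H,
    ∀ k, T ⟨F k, Submodule.subset_span ⟨k, rfl⟩⟩ = F (k + 1)

/-- As `BoundedRep`, with `T` injective in addition, so that also the inverse powers of `T` make
sense on the sequence. -/
def BoundedInjRep {I : Type} [Add I] [One I] (F : I → H) : Prop :=
  ∃ T : Submodule.span ℂ (Set.range F) →L[ℂ] H, Function.Injective T ∧
    ∀ k, T ⟨F k, Submodule.subset_span ⟨k, rfl⟩⟩ = F (k + 1)

lemma BoundedInjRep.rep {I : Type} [Add I] [One I] {F : I → H} (h : BoundedInjRep F) :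
    BoundedRep F := by
  obtain ⟨T, -, hT⟩ := h
  exact ⟨T, hT⟩

lemma BoundedRep.orbit {I : Type} [Add I] [One I] {F : I → H} (h : BoundedRep F) :
    HasBoundedOrbit F := by
  classical
  obtain ⟨T, hT⟩ := h
  refine ⟨fun x => if hx : x ∈ Submodule.span ℂ (Set.range F) then T ⟨x, hx⟩ else 0,
    ⟨?_, ?_, ‖T‖, ?_⟩, ?_⟩
  · intro x hx y hy
    have hx' : x ∈ Submodule.span ℂ (Set.range F) := hx
    have hy' : y ∈ Submodule.span ℂ (Set.range F) := hy
    simp only [dif_pos hx', dif_pos hy', dif_pos (add_mem hx' hy')]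
    rw [← map_add]; rfl
  · intro c x hx
    have hx' : x ∈ Submodule.span ℂ (Set.range F) := hx
    simp only [dif_pos hx', dif_pos (Submodule.smul_mem _ c hx')]
    rw [← map_smul]; rfl
  · intro x hx
    have hx' : x ∈ Submodule.span ℂ (Set.range F) := hx
    simp only [dif_pos hx']
    exact T.le_opNorm _
  · intro k
    have hk : F k ∈ Submodule.span ℂ (Set.range F) := Submodule.subset_span ⟨k, rfl⟩
    simp only [dif_pos hk]
    exact hT k

/-- Riesz inequalities give a bounded injective shift along every injective self map of the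
index set. -/
lemma riesz_shift {ι : Type} (F : ι → H) {A B : ℝ} (hA : 0 < A) (hB : 0 < B)
    (h : ∀ (s : Finset ι) (c : ι → ℂ), A * ∑ i ∈ s, ‖c i‖ ^ 2 ≤ ‖∑ i ∈ s, c i • F i‖ ^ 2 ∧
      ‖∑ i ∈ s, c i • F i‖ ^ 2 ≤ B * ∑ i ∈ s, ‖c i‖ ^ 2) (e : ι → ι)
    (he : Function.Injective e) :
    ∃ T : Submodule.span ℂ (Set.range F) →L[ℂ] H, Function.Injective T ∧
      ∀ k, T ⟨F k, Submodule.subset_span ⟨k, rfl⟩⟩ = F (e k) := by
  classical
  have hli : LinearIndependent ℂ F := by
    rw [linearIndependent_iff']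
    intro s c hc i hi
    have h1 := (h s c).1
    rw [hc, norm_zero] at h1
    have h2 : ∑ i ∈ s, ‖c i‖ ^ 2 ≤ 0 := by
      by_contra hcon
      push Not at hcon
      nlinarith [mul_pos hA hcon]
    have h3 : ‖c i‖ ^ 2 ≤ ∑ i ∈ s, ‖c i‖ ^ 2 :=
      Finset.single_le_sum (f := fun i => ‖c i‖ ^ 2) (fun _ _ => by positivity) hi
    have h4 : ‖c i‖ ^ 2 = 0 := le_antisymm (h3.trans h2) (by positivity)
    simpa using h4
  set b := Module.Basis.span hli with hb
  set T : Submodule.span ℂ (Set.range F) →ₗ[ℂ] H := b.constr ℂ (fun k => F (e k)) with hT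
  have hbk : ∀ k, ((b k : Submodule.span ℂ (Set.range F)) : H) = F k := fun k =>
    congrArg Subtype.val (Module.Basis.span_apply hli k)
  have hTb : ∀ k, T (b k) = F (e k) := fun k => b.constr_basis ℂ _ k
  have key : ∀ x : Submodule.span ℂ (Set.range F),
      A * ∑ i ∈ (b.repr x).support, ‖b.repr x i‖ ^ 2 ≤ ‖x‖ ^ 2 ∧
      ‖x‖ ^ 2 ≤ B * ∑ i ∈ (b.repr x).support, ‖b.repr x i‖ ^ 2 ∧
      A * ∑ i ∈ (b.repr x).support, ‖b.repr x i‖ ^ 2 ≤ ‖T x‖ ^ 2 ∧
      ‖T x‖ ^ 2 ≤ B * ∑ i ∈ (b.repr x).support, ‖b.repr x i‖ ^ 2 := by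
    intro x
    have hx : x = ∑ i ∈ (b.repr x).support, b.repr x i • b i := by
      conv_lhs => rw [← b.linearCombination_repr x]
      rfl
    have hx1 : (x : H) = ∑ i ∈ (b.repr x).support, b.repr x i • F i := by
      conv_lhs => rw [hx]
      rw [AddSubmonoidClass.coe_finsetSum]
      refine Finset.sum_congr rfl fun i _ => ?_
      rw [Submodule.coe_smul, hbk]
    have hx2 : T x = ∑ i ∈ (b.repr x).support, b.repr x i • F (e i) := by
      conv_lhs => rw [hx]
      rw [map_sum]
      refine Finset.sum_congr rfl fun i _ => ?_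
      rw [map_smul, hTb]
    have hx3 : T x = ∑ j ∈ (b.repr x).support.image e,
        (Function.extend e (b.repr x) 0) j • F j := by
      rw [hx2, Finset.sum_image (fun i _ j _ hij => he hij)]
      refine Finset.sum_congr rfl fun i _ => ?_
      rw [he.extend_apply]
    have hs3 : ∑ j ∈ (b.repr x).support.image e, ‖(Function.extend e (b.repr x) 0) j‖ ^ 2 =
        ∑ i ∈ (b.repr x).support, ‖b.repr x i‖ ^ 2 := by
      rw [Finset.sum_image (fun i _ j _ hij => he hij)]
      refine Finset.sum_congr rfl fun i _ => ?_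
      rw [he.extend_apply]
    have h1 := h (b.repr x).support (b.repr x)
    have h2 := h ((b.repr x).support.image e) (Function.extend e (b.repr x) 0)
    rw [← hx1] at h1
    rw [← hx3, hs3] at h2
    exact ⟨h1.1, h1.2, h2.1, h2.2⟩
  have hbound : ∀ x, ‖T x‖ ≤ Real.sqrt (B / A) * ‖x‖ := by
    intro x
    obtain ⟨k1, k2, k3, k4⟩ := key x
    apply le_of_sq_le_sq _ (by positivity)
    rw [mul_pow, Real.sq_sqrt (by positivity)]
    have h5 : ∑ i ∈ (b.repr x).support, ‖b.repr x i‖ ^ 2 ≤ ‖x‖ ^ 2 / A := by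
      rw [le_div_iff₀ hA]; linarith
    calc ‖T x‖ ^ 2 ≤ B * (‖x‖ ^ 2 / A) := k4.trans (mul_le_mul_of_nonneg_left h5 hB.le)
      _ = B / A * ‖x‖ ^ 2 := by ring
  refine ⟨T.mkContinuous _ hbound, ?_, ?_⟩
  · intro x y hxy
    have h1 : T (x - y) = 0 := by
      rw [map_sub, sub_eq_zero]; exact hxy
    obtain ⟨k1, k2, k3, k4⟩ := key (x - y)
    rw [h1, norm_zero] at k3
    have h2 : ∑ i ∈ (b.repr (x - y)).support, ‖b.repr (x - y) i‖ ^ 2 ≤ 0 := by
      by_contra hcon
      push Not at hcon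
      nlinarith [mul_pos hA hcon]
    have h3 : ‖x - y‖ ^ 2 ≤ 0 := k2.trans (mul_nonpos_of_nonneg_of_nonpos hB.le h2)
    have h4 : ‖x - y‖ ^ 2 = 0 := le_antisymm h3 (by positivity)
    rw [← sub_eq_zero]
    exact norm_eq_zero.1 (pow_eq_zero_iff (two_ne_zero) |>.1 h4)
  · intro k
    have h1 : (⟨F k, Submodule.subset_span ⟨k, rfl⟩⟩ : Submodule.span ℂ (Set.range F)) = b k :=
      Subtype.ext (hbk k).symm
    rw [h1]
    exact hTb k

/-- Every ordering of a Riesz basis has a bounded injective representation. -/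
lemma riesz_rep {ι I : Type} [Add I] [One I] (hI : Function.Injective (fun k : I => k + 1))
    (f : ι → H) (hf : IsRieszBasis f) (σ : I ≃ ι) :
    BoundedInjRep (fun k => f (σ k)) := by
  classical
  obtain ⟨-, A, B, hA, hB, h⟩ := hf
  refine riesz_shift (fun k => f (σ k)) hA hB ?_ (fun k => k + 1) hI
  intro s c
  have h1 := h (s.image σ) (fun i => c (σ.symm i))
  rw [Finset.sum_image (fun i _ j _ hij => σ.injective hij),
    Finset.sum_image (fun i _ j _ hij => σ.injective hij)] at h1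
  simpa using h1

end Q83.GaborRep
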