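import Pool.Agent.Helper704.RW.Base

/-!
Orthonormal systems of dyadic dilates of exponentials on finitely many intervals of length one.
-/

set_option autoImplicit false
set_option linter.unusedSectionVars false
open MeasureTheory
open scoped FourierTransform ENNReal
open Pool.Agent.Helper704 Pool.Agent.Helper704.RW

namespace Q83.Msf

/-- The interval of length one starting at the integer `c`. -/
def II (c : ℤ) : Set ℝ := Set.Ico (c : ℝ) (c + 1)

lemma measurableSet_II (c : ℤ) : MeasurableSet (II c) := measurableSet_Ico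

lemma restrict_II (c : ℤ) : volume.restrict (II c) = volume.restrict (Set.Ioc (c : ℝ) (c + 1)) := by
  unfold II
  exact Measure.restrict_congr_set Ico_ae_eq_Ioc

lemma fourier_zero_II (c : ℤ) (P : ℝ → ℂ) (hP : MemLp P 2 (volume.restrict (II c)))
    (h : ∀ k : ℤ, ∫ η in II c, ex k η * P η = 0) : ∀ᵐ η ∂(volume.restrict (II c)), P η = 0 := by
  rw [restrict_II] at *
  have hab : (c : ℝ) < c + 1 := by linarith
  have h1 := hasSum_sq_fourierCoeffOn hab hP
  have hT : ((c : ℝ) + 1 - c) = 1 := by ring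
  have h2 : ∀ n : ℤ, fourierCoeffOn hab P n = 0 := by
    intro n
    rw [fourierCoeffOn_eq_integral, intervalIntegral.integral_of_le hab.le]
    have h3 : ∀ x : ℝ, fourier (-n) (x : AddCircle ((c : ℝ) + 1 - c)) • P x = ex n x * P x := by
      intro x
      rw [fourier_coe_apply, smul_eq_mul]
      congr 1
      unfold ex
      congr 1
      rw [hT]
      push_cast
      ring
    simp_rw [h3]
    rw [h n]; simp
  simp_rw [h2] at h1
  have h4 : ∫ x in (c : ℝ)..(c + 1), ‖P x‖ ^ 2 = 0 := by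
    have h0 : HasSum (fun _ : ℤ => ‖(0:ℂ)‖ ^ 2) (0:ℝ) := by simp
    have := h1.unique h0
    rw [smul_eq_mul, mul_eq_zero] at this
    rcases this with h | h
    · norm_num at h
    · exact h
  rw [intervalIntegral.integral_of_le hab.le,
    integral_eq_zero_iff_of_nonneg (fun x => by positivity)
      ((memLp_two_iff_integrable_sq_norm hP.1).1 hP)] at h4
  filter_upwards [h4] with x hx
  simpa using hx

lemma integral_ex_II (c k : ℤ) : ∫ η in II c, ex k η = if k = 0 then 1 else 0 := by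
  rw [restrict_II, ← intervalIntegral.integral_of_le (by linarith)]
  by_cases hk : k = 0
  · subst hk
    simp [ex]
  · rw [if_neg hk]
    have hc : (-2 * Real.pi * k * Complex.I : ℂ) ≠ 0 := by
      have : (Real.pi : ℂ) ≠ 0 := by exact_mod_cast Real.pi_ne_zero
      have : (k : ℂ) ≠ 0 := by exact_mod_cast hk
      simp [*]
    have h1 : ∀ x : ℝ, ex k x = Complex.exp ((-2 * Real.pi * k * Complex.I : ℂ) * x) := by
      intro x; unfold ex; congr 1; push_cast; ring
    simp_rw [h1]
    rw [integral_exp_mul_complex hc]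
    have h2 : Complex.exp ((-2 * Real.pi * k * Complex.I : ℂ) * (((c : ℝ) + 1 : ℝ) : ℂ)) =
        Complex.exp ((-2 * Real.pi * k * Complex.I : ℂ) * ((c : ℝ) : ℂ)) := by
      have : ((-2 * Real.pi * k * Complex.I : ℂ) * (((c : ℝ) + 1 : ℝ) : ℂ)) =
          ((-2 * Real.pi * k * Complex.I : ℂ) * ((c : ℝ) : ℂ)) +
            ((-k : ℤ) : ℂ) * (2 * Real.pi * Complex.I) := by push_cast; ring
      rw [this, Complex.exp_add, Complex.exp_int_mul_two_pi_mul_I, mul_one]
    rw [h2]; simp

lemma memLp_ind' {S : Set ℝ} (hS : MeasurableSet S) (hv : volume S ≠ ⊤) :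
    MemLp (S.indicator (fun _ => (1:ℂ))) 2 volume :=
  memLp_indicator_const 2 hS _ (Or.inr hv)

lemma vol_II (c : ℤ) : volume (II c) ≠ ⊤ := by
  unfold II
  rw [Real.volume_Ico]
  exact ENNReal.ofReal_ne_top

lemma inner_toLp' (f g : ℝ → ℂ) (hf : MemLp f 2 volume) (hg : MemLp g 2 volume) :
    inner ℂ (hf.toLp f) (hg.toLp g) = ∫ ξ, (starRingEnd ℂ) (f ξ) * g ξ := by
  rw [L2.inner_def]
  apply integral_congr_ae
  filter_upwards [hf.coeFn_toLp, hg.coeFn_toLp] with x h1 h2
  rw [h1, h2]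
  simp [mul_comm]

lemma ex_conj_mul (k k' : ℤ) (η : ℝ) : (starRingEnd ℂ) (ex k η) * ex k' η = ex (k' - k) η := by
  unfold ex
  rw [← Complex.exp_conj, ← Complex.exp_add]
  congr 1
  rw [map_mul, Complex.conj_ofReal, Complex.conj_I]
  push_cast; ring

lemma ex_conj (k : ℤ) (η : ℝ) : (starRingEnd ℂ) (ex (-k) η) = ex k η := by
  unfold ex
  rw [← Complex.exp_conj]
  congr 1
  rw [map_mul, Complex.conj_ofReal, Complex.conj_I]
  push_cast; ring

variable {ι : Type} (c : ι → ℤ)

/-- The system of dilated exponentials on intervals. -/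
noncomputable def eI (q : ι × (ℤ × ℤ)) : HH :=
  Dh q.2 ((memLp_ind' (measurableSet_II (c q.1)) (vol_II _)).toLp _)

lemma orthonormal_eI (hdis : ∀ (ξ : ℝ) (i i' : ι) (j j' : ℤ), (2:ℝ) ^ (-j) * ξ ∈ II (c i) →
    (2:ℝ) ^ (-j') * ξ ∈ II (c i') → i = i' ∧ j = j') : Orthonormal ℂ (eI c) := by
  classical
  rw [orthonormal_iff_ite]
  rintro ⟨i, j, k⟩ ⟨i', j', k'⟩
  unfold eI
  rw [Dh_toLp, Dh_toLp, inner_toLp']
  simp only
  by_cases hij : i = i' ∧ j = j'
  · obtain ⟨rfl, rfl⟩ := hij
    have h1 : ∀ ξ, (starRingEnd ℂ) (fq (j, k) ((II (c i)).indicator fun _ => 1) ξ) *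
        fq (j, k') ((II (c i)).indicator fun _ => 1) ξ =
        (fun η => ((2:ℝ) ^ (-j) : ℝ) • (II (c i)).indicator (ex (k' - k)) η) (dy (-j) ξ - 0) := by
      intro ξ
      unfold fq
      simp only [dy_apply, sub_zero]
      by_cases h : (2:ℝ) ^ (-j) * ξ ∈ II (c i)
      · rw [Set.indicator_of_mem h, Set.indicator_of_mem h]
        rw [map_mul, map_mul, Complex.conj_ofReal, map_one]
        have h2 := ex_conj_mul k k' ((2:ℝ) ^ (-j) * ξ)
        have h3 : ((Real.sqrt ((2:ℝ) ^ (-j)) : ℝ) : ℂ) * ((Real.sqrt ((2:ℝ) ^ (-j)) : ℝ) : ℂ) =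
            (((2:ℝ) ^ (-j) : ℝ) : ℂ) := by
          rw [← Complex.ofReal_mul, Real.mul_self_sqrt (by positivity)]
        rw [Complex.real_smul, ← h2, ← h3]
        ring
      · rw [Set.indicator_of_notMem h, Set.indicator_of_notMem h]
        simp
    simp_rw [h1]
    rw [integral_aff (dy (-j)) 0 (fun η => ((2:ℝ) ^ (-j) : ℝ) •
      (II (c i)).indicator (ex (k' - k)) η), integral_smul,
      integral_indicator (measurableSet_II _), integral_ex_II,
      adet_dy, smul_smul, inv_mul_cancel₀ (by positivity), one_smul]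
    have h4 : k' - k = 0 ↔ ((i, j, k) : ι × ℤ × ℤ) = (i, j, k') := by
      simp only [Prod.mk.injEq, true_and]; omega
    simp only [h4]
  · rw [if_neg (by
      intro h
      simp only [Prod.mk.injEq] at h
      exact hij ⟨h.1, h.2.1⟩)]
    have h1 : ∀ ξ, (starRingEnd ℂ) (fq (j, k) ((II (c i)).indicator fun _ => 1) ξ) *
        fq (j', k') ((II (c i')).indicator fun _ => 1) ξ = 0 := by
      intro ξ
      unfold fq
      simp only
      by_cases h : (2:ℝ) ^ (-j) * ξ ∈ II (c i)
      · by_cases h' : (2:ℝ) ^ (-j') * ξ ∈ II (c i')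
        · exact (hij (hdis ξ i i' j j' h h')).elim
        · rw [Set.indicator_of_notMem h']; simp
      · rw [Set.indicator_of_notMem h]; simp
    simp_rw [h1]
    simp

lemma complete_eI [Countable ι] (hcov : ∀ ξ : ℝ, ξ ≠ 0 → ∃ (i : ι) (j : ℤ),
    (2:ℝ) ^ (-j) * ξ ∈ II (c i)) (u : HH) (hu : ∀ q, inner ℂ (eI c q) u = 0) : u = 0 := by
  have hu2 : MemLp (u : ℝ → ℂ) 2 volume := Lp.memLp u
  have main : ∀ (i : ι) (j : ℤ), ∀ᵐ ξ : ℝ, (2:ℝ) ^ (-j) * ξ ∈ II (c i) → u ξ = 0 := by
    intro i j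
    set v : ℝ → ℂ := fun η => u ((2:ℝ) ^ j * η) with hv
    have hv2 : MemLp v 2 volume := by
      have := memLp_wco (dy j) 0 (wT (dy j)) (wt_wT _) hu2
      have h3 : v = fun x => ((Real.sqrt ((2:ℝ) ^ j))⁻¹ : ℂ) * (wT (dy j) x * u (dy j x - 0)) := by
        funext x
        simp only [hv, wT, adet_dy, dy_apply, sub_zero]
        rw [← mul_assoc, inv_mul_cancel₀, one_mul]
        have : Real.sqrt ((2:ℝ) ^ j) ≠ 0 := (Real.sqrt_pos.2 (by positivity)).ne'
        exact_mod_cast this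
      rw [h3]
      exact this.const_mul _
    have hzero : ∀ k : ℤ, ∫ η in II (c i), ex k η * v η = 0 := by
      intro k
      have h1 := hu (i, j, -k)
      unfold eI at h1
      rw [Dh_toLp] at h1
      have h2 := inner_toLp' _ _ (memLp_fq (j, -k) (memLp_ind' (measurableSet_II (c i)) (vol_II _)))
        hu2
      rw [Lp.toLp_coeFn, h1] at h2
      have h3 : ∀ ξ, (starRingEnd ℂ) (fq (j, -k) ((II (c i)).indicator fun _ => 1) ξ) * u ξ =
          (fun η => ((Real.sqrt ((2:ℝ) ^ (-j)) : ℝ) : ℂ) *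
            (II (c i)).indicator (fun η => ex k η * v η) η) (dy (-j) ξ - 0) := by
        intro ξ
        unfold fq
        simp only [dy_apply, sub_zero]
        by_cases h : (2:ℝ) ^ (-j) * ξ ∈ II (c i)
        · rw [Set.indicator_of_mem h, Set.indicator_of_mem h]
          rw [map_mul, map_mul, Complex.conj_ofReal, map_one]
          have h4 := ex_conj k ((2:ℝ) ^ (-j) * ξ)
          have h5 : v ((2:ℝ) ^ (-j) * ξ) = u ξ := by
            simp only [hv]
            rw [← mul_assoc, ← zpow_add₀ (by norm_num)]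
            simp
          rw [h4, h5]; ring
        · rw [Set.indicator_of_notMem h, Set.indicator_of_notMem h]
          simp
      simp_rw [h3] at h2
      rw [integral_aff (dy (-j)) 0 (fun η => ((Real.sqrt ((2:ℝ) ^ (-j)) : ℝ) : ℂ) *
            (II (c i)).indicator (fun η => ex k η * v η) η), integral_const_mul,
            integral_indicator (measurableSet_II _)] at h2
      have h6 : Real.sqrt ((2:ℝ) ^ (-j)) ≠ 0 := (Real.sqrt_pos.2 (by positivity)).ne'
      have h7 : (adet (dy (-j)))⁻¹ ≠ 0 := inv_ne_zero (adet_pos _).ne'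
      have h8 := (smul_eq_zero.1 h2.symm).resolve_left h7
      exact (mul_eq_zero.1 h8).resolve_left (by exact_mod_cast h6)
    have h0 := fourier_zero_II (c i) v (hv2.restrict _) hzero
    rw [ae_restrict_iff' (measurableSet_II _)] at h0
    filter_upwards [(qmp_aff (dy (-j)) 0).ae h0] with ξ hξ h1
    have h2 : dy (-j) ξ - 0 = (2:ℝ) ^ (-j) * ξ := by rw [sub_zero]; rfl
    rw [h2] at hξ
    have h3 := hξ h1
    simp only [hv] at h3
    rw [← mul_assoc, ← zpow_add₀ (by norm_num)] at h3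
    simpa using h3
  have hall : ∀ᵐ ξ : ℝ, ∀ (i : ι) (j : ℤ), (2:ℝ) ^ (-j) * ξ ∈ II (c i) → u ξ = 0 :=
    ae_all_iff.2 fun i => ae_all_iff.2 fun j => main i j
  have hne : ∀ᵐ ξ : ℝ, ξ ≠ 0 := by
    have : (volume : Measure ℝ) {0} = 0 := by simp
    rw [ae_iff]; simpa using this
  rw [Lp.eq_zero_iff_ae_eq_zero]
  filter_upwards [hall, hne] with ξ h1 h2
  obtain ⟨i, j, hj⟩ := hcov ξ h2
  exact h1 i j hj

end Q83.Msf
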