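import Pool.Agent.Q83.Msf

/-!
An abstract Riesz basis built from an orthonormal system with three families.
-/

set_option autoImplicit false
set_option linter.unusedSectionVars false
open scoped BigOperators

namespace Q83.Riesz3

variable {H : Type*} [NormedAddCommGroup H] [InnerProductSpace ℂ H]

/-- Riesz basis: the span is dense and there are `A, B > 0` with
`A ∑ |c i|² ≤ ‖∑ c i • f i‖² ≤ B ∑ |c i|²` for all finite families of scalars. -/
def IsRieszBasis {ι : Type*} (f : ι → H) : Prop :=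
  Dense (Submodule.span ℂ (Set.range f) : Set H) ∧
  ∃ A B : ℝ, 0 < A ∧ 0 < B ∧ ∀ (s : Finset ι) (c : ι → ℂ),
    A * ∑ i ∈ s, ‖c i‖ ^ 2 ≤ ‖∑ i ∈ s, c i • f i‖ ^ 2 ∧
    ‖∑ i ∈ s, c i • f i‖ ^ 2 ≤ B * ∑ i ∈ s, ‖c i‖ ^ 2

lemma IsRieszBasis.reindex {ι κ : Type*} (σ : κ ≃ ι) (f : ι → H)
    (h : IsRieszBasis (fun k => f (σ k))) : IsRieszBasis f := by
  classical
  obtain ⟨hd, A, B, hA, hB, hb⟩ := h
  refine ⟨?_, A, B, hA, hB, fun s c => ?_⟩
  · have : Set.range (fun k => f (σ k)) = Set.range f := σ.surjective.range_comp f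
    rwa [this] at hd
  · have h1 := hb (s.map σ.symm.toEmbedding) (fun k => c (σ k))
    simpa using h1

lemma IsRieszBasis.of_isometry [CompleteSpace H] {ι : Type*} (U : H ≃ₗᵢ[ℂ] H) (f : ι → H)
    (h : IsRieszBasis (fun i => U (f i))) : IsRieszBasis f := by
  obtain ⟨hd, A, B, hA, hB, hb⟩ := h
  refine ⟨?_, A, B, hA, hB, fun s c => ?_⟩
  · rw [Submodule.dense_iff_topologicalClosure_eq_top, Submodule.topologicalClosure_eq_top_iff,
      Submodule.eq_bot_iff] at hd ⊢
    intro x hx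
    have h1 : U x = 0 := by
      apply hd
      rw [Submodule.mem_orthogonal]
      intro u hu
      induction hu using Submodule.span_induction with
      | mem y hy =>
        obtain ⟨i, rfl⟩ := hy
        rw [U.inner_map_map]
        exact (Submodule.mem_orthogonal _ _).1 hx _ (Submodule.subset_span ⟨i, rfl⟩)
      | zero => exact inner_zero_left _
      | add y z _ _ h2 h3 => rw [inner_add_left, h2, h3, add_zero]
      | smul a y _ h2 => rw [inner_smul_left, h2, mul_zero]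
    exact (LinearIsometryEquiv.map_eq_zero_iff U).1 h1
  · have h1 := hb s c
    have h2 : ∑ i ∈ s, c i • U (f i) = U (∑ i ∈ s, c i • f i) := by
      rw [map_sum]
      exact Finset.sum_congr rfl fun i _ => (map_smul U _ _).symm
    rwa [h2, U.norm_map] at h1

lemma norm_sq_add_orth (x y : H) (hxy : inner ℂ x y = 0) : ‖x + y‖ ^ 2 = ‖x‖ ^ 2 + ‖y‖ ^ 2 := by
  have := norm_add_sq (𝕜 := ℂ) x y
  rw [hxy] at this
  simpa using this

lemma norm_sq_comb [CompleteSpace H] {κ : Type*} {e : κ → H} (he : Orthonormal ℂ e) (s : Finset κ) (c : κ → ℂ) :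
    ‖∑ p ∈ s, c p • e p‖ ^ 2 = ∑ p ∈ s, ‖c p‖ ^ 2 :=
  Pool.Agent.Helper704.RW.orthonormal_norm_sq he s c

/-- The abstract system: in the first family a vector is half of the sum of two orthonormal
vectors, up to the factor `√2`. -/
theorem riesz3 [CompleteSpace H] {κ : Type*} (e : Fin 3 × κ → H) (he : Orthonormal ℂ e)
    (hc : ∀ x : H, (∀ q, inner ℂ (e q) x = 0) → x = 0) (τ : κ ≃ κ) (g : Fin 3 × κ → H)
    (r : ℝ) (hr : r ^ 2 = 1 / 2)
    (h0 : ∀ p, g (0, p) = (r : ℂ) • (e (0, τ p) + e (1, τ p)))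
    (h1 : ∀ p, g (1, p) = e (1, p)) (h2 : ∀ p, g (2, p) = e (2, p)) : IsRieszBasis g := by
  classical
  have hr0 : (r : ℂ) ≠ 0 := by
    intro h
    have : r = 0 := by exact_mod_cast h
    rw [this] at hr
    norm_num at hr
  refine ⟨?_, 1 / 4, 2, by norm_num, by norm_num, fun s c => ?_⟩
  · rw [Submodule.dense_iff_topologicalClosure_eq_top, Submodule.topologicalClosure_eq_top_iff,
      Submodule.eq_bot_iff]
    intro x hx
    have hg : ∀ q, inner ℂ (g q) x = 0 := fun q =>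
      (Submodule.mem_orthogonal _ _).1 hx _ (Submodule.subset_span ⟨q, rfl⟩)
    apply hc
    have e1 : ∀ p, inner ℂ (e (1, p)) x = 0 := fun p => by rw [← h1]; exact hg _
    have e2 : ∀ p, inner ℂ (e (2, p)) x = 0 := fun p => by rw [← h2]; exact hg _
    have e0 : ∀ p, inner ℂ (e (0, p)) x = 0 := by
      intro p
      have h3 := hg (0, τ.symm p)
      rw [h0, Equiv.apply_symm_apply, inner_smul_left, mul_eq_zero] at h3
      rcases h3 with h3 | h3
      · simp only [Complex.conj_ofReal] at h3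
        exact absurd h3 hr0
      · rw [inner_add_left, e1, add_zero] at h3
        exact h3
    rintro ⟨i, p⟩
    fin_cases i
    · exact e0 p
    · exact e1 p
    · exact e2 p
  · -- reduce to a product set
    set t : Finset κ := s.image Prod.snd with ht
    set c' : Fin 3 × κ → ℂ := fun q => if q ∈ s then c q else 0 with hc'
    have hsub : s ⊆ Finset.univ ×ˢ t := by
      intro q hq
      rw [Finset.mem_product]
      exact ⟨Finset.mem_univ _, Finset.mem_image_of_mem _ hq⟩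
    have hsum1 : ∑ i ∈ s, ‖c i‖ ^ 2 = ∑ q ∈ Finset.univ ×ˢ t, ‖c' q‖ ^ 2 := by
      rw [← Finset.sum_subset hsub]
      · exact Finset.sum_congr rfl fun q hq => by rw [hc']; simp only [if_pos hq]
      · intro q _ hq
        rw [hc']; simp only [if_neg hq]; simp
    have hsum2 : ∑ i ∈ s, c i • g i = ∑ q ∈ Finset.univ ×ˢ t, c' q • g q := by
      rw [← Finset.sum_subset hsub]
      · exact Finset.sum_congr rfl fun q hq => by rw [hc']; simp only [if_pos hq]
      · intro q _ hq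
        rw [hc']; simp only [if_neg hq]; simp
    rw [hsum1, hsum2]
    rw [Finset.sum_product, Finset.sum_product, Fin.sum_univ_three, Fin.sum_univ_three]
    -- the four vectors
    set x0 := ∑ p ∈ t, c' (0, p) • e (0, τ p) with hx0
    set x1 := ∑ p ∈ t, c' (0, p) • e (1, τ p) with hx1
    set y := ∑ p ∈ t, c' (1, p) • e (1, p) with hy
    set z := ∑ p ∈ t, c' (2, p) • e (2, p) with hz
    have s0 : ∑ p ∈ t, c' (0, p) • g (0, p) = (r : ℂ) • x0 + (r : ℂ) • x1 := by
      rw [hx0, hx1, Finset.smul_sum, Finset.smul_sum, ← Finset.sum_add_distrib]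
      refine Finset.sum_congr rfl fun p _ => ?_
      rw [h0, smul_add, smul_add, smul_comm _ (r : ℂ), smul_comm _ (r : ℂ)]
    have s1 : ∑ p ∈ t, c' (1, p) • g (1, p) = y :=
      Finset.sum_congr rfl fun p _ => by rw [h1]
    have s2 : ∑ p ∈ t, c' (2, p) • g (2, p) = z :=
      Finset.sum_congr rfl fun p _ => by rw [h2]
    rw [s0, s1, s2]
    have oi := orthonormal_iff_ite.1 he
    have horth : ∀ (i i' : Fin 3) (hne : i ≠ i') (a b : κ → ℂ) (f1 f2 : κ → κ),
        inner ℂ (∑ p ∈ t, a p • e (i, f1 p)) (∑ p ∈ t, b p • e (i', f2 p)) = 0 := by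
      intro i i' hne a b f1 f2
      rw [sum_inner]
      refine Finset.sum_eq_zero fun p _ => ?_
      rw [inner_sum]
      refine Finset.sum_eq_zero fun p' _ => ?_
      rw [inner_smul_left, inner_smul_right, oi, if_neg, mul_zero, mul_zero]
      intro h
      exact hne (congrArg Prod.fst h)
    have n0 : ‖x0‖ ^ 2 = ∑ p ∈ t, ‖c' (0, p)‖ ^ 2 := by
      have := norm_sq_comb (he.comp (fun p => ((0 : Fin 3), τ p)) (fun p p' h => by
        have := congrArg Prod.snd h
        exact τ.injective this)) t (fun p => c' (0, p))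
      exact this
    have n1 : ‖x1‖ ^ 2 = ∑ p ∈ t, ‖c' (0, p)‖ ^ 2 := by
      have := norm_sq_comb (he.comp (fun p => ((1 : Fin 3), τ p)) (fun p p' h => by
        have := congrArg Prod.snd h
        exact τ.injective this)) t (fun p => c' (0, p))
      exact this
    have n2 : ‖y‖ ^ 2 = ∑ p ∈ t, ‖c' (1, p)‖ ^ 2 := by
      have := norm_sq_comb (he.comp (fun p => ((1 : Fin 3), p)) (fun p p' h => by
        exact congrArg Prod.snd h)) t (fun p => c' (1, p))
      exact this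
    have n3 : ‖z‖ ^ 2 = ∑ p ∈ t, ‖c' (2, p)‖ ^ 2 := by
      have := norm_sq_comb (he.comp (fun p => ((2 : Fin 3), p)) (fun p p' h => by
        exact congrArg Prod.snd h)) t (fun p => c' (2, p))
      exact this
    have o01 : inner ℂ x0 x1 = 0 := horth 0 1 (by decide) _ _ _ _
    have o0y : inner ℂ x0 y = 0 := horth 0 1 (by decide) _ _ _ (fun p => p)
    have o0z : inner ℂ x0 z = 0 := horth 0 2 (by decide) _ _ _ (fun p => p)
    have o1z : inner ℂ x1 z = 0 := horth 1 2 (by decide) _ _ _ (fun p => p)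
    have oyz : inner ℂ y z = 0 := horth 1 2 (by decide) _ _ (fun p => p) (fun p => p)
    have e1 : (r : ℂ) • x0 + (r : ℂ) • x1 + y + z = (r : ℂ) • x0 + (((r : ℂ) • x1 + y) + z) := by
      abel
    have e2 : ‖(r : ℂ) • x0 + (r : ℂ) • x1 + y + z‖ ^ 2 =
        1 / 2 * ‖x0‖ ^ 2 + (‖(r : ℂ) • x1 + y‖ ^ 2 + ‖z‖ ^ 2) := by
      rw [e1, norm_sq_add_orth _ _ (by
        rw [inner_smul_left, inner_add_right, inner_add_right, inner_smul_right, o01, o0y, o0z]
        simp), norm_sq_add_orth _ _ (by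
        rw [inner_add_left, inner_smul_left, o1z, oyz]; simp), norm_smul, mul_pow,
        Complex.norm_real, Real.norm_eq_abs, sq_abs, hr]
    have n4 : ‖(r : ℂ) • x1‖ ^ 2 = 1 / 2 * ‖x1‖ ^ 2 := by
      rw [norm_smul, mul_pow, Complex.norm_real, Real.norm_eq_abs, sq_abs, hr]
    have t1 : ‖(r : ℂ) • x1 + y‖ ^ 2 ≤ 2 * ‖(r : ℂ) • x1‖ ^ 2 + 2 * ‖y‖ ^ 2 := by
      have := norm_add_le ((r : ℂ) • x1) y
      nlinarith [norm_nonneg ((r : ℂ) • x1 + y), norm_nonneg ((r : ℂ) • x1), norm_nonneg y,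
        sq_nonneg (‖(r : ℂ) • x1‖ - ‖y‖)]
    have t2 : ‖y‖ ^ 2 ≤ 2 * ‖(r : ℂ) • x1 + y‖ ^ 2 + 2 * ‖(r : ℂ) • x1‖ ^ 2 := by
      have h4 : ‖y‖ ≤ ‖(r : ℂ) • x1 + y‖ + ‖(r : ℂ) • x1‖ := by
        have := norm_sub_le ((r : ℂ) • x1 + y) ((r : ℂ) • x1)
        rwa [add_sub_cancel_left] at this
      nlinarith [norm_nonneg ((r : ℂ) • x1 + y), norm_nonneg ((r : ℂ) • x1), norm_nonneg y,
        sq_nonneg (‖(r : ℂ) • x1 + y‖ - ‖(r : ℂ) • x1‖)]
    rw [n4, n1] at t1 t2
    rw [e2, n0, n3]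
    rw [n2] at t1 t2
    have p0 : 0 ≤ ∑ p ∈ t, ‖c' (0, p)‖ ^ 2 := Finset.sum_nonneg fun _ _ => by positivity
    have p1 : 0 ≤ ∑ p ∈ t, ‖c' (1, p)‖ ^ 2 := Finset.sum_nonneg fun _ _ => by positivity
    have p2 : 0 ≤ ∑ p ∈ t, ‖c' (2, p)‖ ^ 2 := Finset.sum_nonneg fun _ _ => by positivity
    have p3 : 0 ≤ ‖(r : ℂ) • x1 + y‖ ^ 2 := by positivity
    constructor <;> linarith

end Q83.Riesz3
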